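import Mathlib

set_option autoImplicit false

/-! Closed subgroups of powers of the circle are intersections of kernels of monomials. -/

namespace Pool.Agent.P5131b0

open MeasureTheory Set

section mono

variable {I : Type}

/-- The monomial character attached to an integer vector of finite support. -/
noncomputable def mono (n : I →₀ ℤ) : (I → Circle) →* Circle where
  toFun x := n.prod fun i k => x i ^ k
  map_one' := by simp [Finsupp.prod]
  map_mul' x y := by simp [Finsupp.prod, mul_zpow, Finset.prod_mul_distrib]

theorem mono_apply (n : I →₀ ℤ) (x : I → Circle) : mono n x = n.prod fun i k => x i ^ k := rfl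

theorem mono_zero (x : I → Circle) : mono (0 : I →₀ ℤ) x = 1 := by simp [mono_apply]

theorem mono_add (m n : I →₀ ℤ) (x : I → Circle) : mono (m + n) x = mono m x * mono n x := by
  simp only [mono_apply]
  rw [Finsupp.prod_add_index']
  · intro i; simp
  · intro i a b; exact zpow_add _ _ _

theorem mono_neg (n : I →₀ ℤ) (x : I → Circle) : mono (-n) x = (mono n x)⁻¹ := by
  have h := mono_add n (-n) x
  rw [add_neg_cancel, mono_zero] at h
  exact eq_inv_of_mul_eq_one_right h.symm

theorem mono_single (i : I) (k : ℤ) (x : I → Circle) : mono (Finsupp.single i k) x = x i ^ k := by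
  simp only [mono_apply]
  rw [Finsupp.prod_single_index (by simp)]

theorem continuous_mono (n : I →₀ ℤ) : Continuous (mono n) := by
  show Continuous fun x : I → Circle => n.prod fun i k => x i ^ k
  unfold Finsupp.prod
  fun_prop

/-- monomial as a complex valued continuous function -/
noncomputable def monoC (n : I →₀ ℤ) : C(I → Circle, ℂ) :=
  ⟨fun x => (mono n x : ℂ), continuous_subtype_val.comp (continuous_mono n)⟩

/-- the star subalgebra of trigonometric polynomials -/
noncomputable def trig (I : Type) : StarSubalgebra ℂ C(I → Circle, ℂ) where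
  toSubalgebra := Algebra.adjoin ℂ (range (monoC (I := I)))
  star_mem' := by
    change Algebra.adjoin ℂ (range (monoC (I := I))) ≤ star (Algebra.adjoin ℂ (range monoC))
    refine Algebra.adjoin_le ?_
    rintro - ⟨n, rfl⟩
    refine Algebra.subset_adjoin ⟨-n, ?_⟩
    ext x
    simp only [monoC, ContinuousMap.coe_mk, mono_neg, ContinuousMap.star_apply, Circle.coe_inv]
    rw [← Circle.coe_inv, Circle.coe_inv_eq_conj]
    rfl

theorem trig_coe : Subalgebra.toSubmodule (trig I).toSubalgebra
    = Submodule.span ℂ (range (monoC (I := I))) := by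
  apply Algebra.adjoin_eq_span_of_subset
  refine Subset.trans ?_ Submodule.subset_span
  intro x hx
  refine Submonoid.closure_induction (fun _ => id) ⟨0, ?_⟩ ?_ hx
  · ext1 z; simp [monoC, mono_zero]
  · rintro - - - - ⟨m, rfl⟩ ⟨n, rfl⟩
    refine ⟨m + n, ?_⟩
    ext1 z
    simp [monoC, mono_add]

theorem trig_sep : (trig I).SeparatesPoints := by
  intro x y hxy
  obtain ⟨i, hi⟩ := Function.ne_iff.1 hxy
  refine ⟨_, ⟨monoC (Finsupp.single i 1), Algebra.subset_adjoin ⟨_, rfl⟩, rfl⟩, ?_⟩
  simp only [monoC, ContinuousMap.coe_mk, mono_single, zpow_one]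
  intro h
  exact hi (Circle.ext h)

theorem trig_dense : (trig I).topologicalClosure = ⊤ :=
  ContinuousMap.starSubalgebra_topologicalClosure_eq_top_of_separatesPoints _ trig_sep

theorem bip (E : Subgroup (I → Circle)) (hE : IsClosed (E : Set (I → Circle)))
    (p : I → Circle) (hp : p ∉ E) :
    ∃ n : I →₀ ℤ, (∀ x ∈ E, mono n x = 1) ∧ mono n p ≠ 1 := by
  classical
  by_contra hcon
  push Not at hcon
  have hcomp : CompactSpace E := isCompact_iff_compactSpace.1 hE.isCompact
  let _ : MeasurableSpace E := borel E
  have _ : BorelSpace E := ⟨rfl⟩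
  let μ : Measure E := Measure.haarMeasure ⊤
  have hμ1 : IsProbabilityMeasure μ := ⟨by
    have := Measure.haarMeasure_self (G := E) (K₀ := ⊤)
    simpa using this⟩
  have hint : ∀ (f : C(I → Circle, ℂ)) (q : I → Circle),
      Integrable (fun e : E => f (q * e)) μ := by
    intro f q
    have hc : Continuous (fun e : E => f (q * e)) := by fun_prop
    exact hc.integrable_of_hasCompactSupport (HasCompactSupport.of_compactSpace _)
  -- averages of monomials agree at `p` and `1`
  have hmono : ∀ n : I →₀ ℤ, ∫ e : E, monoC n (p * e) ∂μ = ∫ e : E, monoC n (1 * e) ∂μ := by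
    intro n
    by_cases hn : ∀ x ∈ E, mono n x = 1
    · have h1 := hcon n hn
      refine integral_congr_ae (Filter.Eventually.of_forall fun e => ?_)
      simp [monoC, map_mul, h1]
    · push Not at hn
      obtain ⟨x, hxE, hx⟩ := hn
      have h0 : ∫ e : E, monoC n e ∂μ = 0 := by
        have h1 := integral_mul_left_eq_self (μ := μ) (fun e : E => monoC n e) (⟨x, hxE⟩ : E)
        have h2 : ∀ e : E, monoC n ((⟨x, hxE⟩ * e : E) : I → Circle)
            = (mono n x : ℂ) * monoC n (e : I → Circle) := by
          intro e
          simp [monoC]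
        simp only [h2] at h1
        rw [integral_const_mul] at h1
        have h3 : ((mono n x : ℂ) - 1) * ∫ e : E, monoC n (e : I → Circle) ∂μ = 0 := by
          rw [sub_mul, one_mul, h1, sub_self]
        rcases mul_eq_zero.1 h3 with h4 | h4
        · exfalso
          apply hx
          apply Circle.ext
          rw [Circle.coe_one]
          exact sub_eq_zero.1 h4
        · exact h4
      have h5 : ∀ q : I → Circle, ∫ e : E, monoC n (q * e) ∂μ = 0 := by
        intro q
        have h6 : ∀ e : E, monoC n (q * e) = (mono n q : ℂ) * monoC n (e : I → Circle) := by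
          intro e
          simp [monoC]
        simp only [h6]
        rw [integral_const_mul, h0, mul_zero]
      rw [h5, h5]
  have htrig : ∀ f ∈ trig I, ∫ e : E, f (p * e) ∂μ = ∫ e : E, f (1 * e) ∂μ := by
    intro f hf
    have hf' : f ∈ Submodule.span ℂ (range (monoC (I := I))) := by
      rw [← trig_coe]; exact hf
    induction hf' using Submodule.span_induction with
    | mem x h => obtain ⟨n, rfl⟩ := h; exact hmono n
    | zero => simp
    | add x y hx hy ihx ihy =>
      have hx' : x ∈ trig I := by
        have : x ∈ Subalgebra.toSubmodule (trig I).toSubalgebra := by rw [trig_coe]; exact hx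
        exact this
      have hy' : y ∈ trig I := by
        have : y ∈ Subalgebra.toSubmodule (trig I).toSubalgebra := by rw [trig_coe]; exact hy
        exact this
      simp only [ContinuousMap.add_apply]
      rw [integral_add (hint x p) (hint y p), integral_add (hint x 1) (hint y 1), ihx hx', ihy hy']
    | smul a x hx ih =>
      have hx' : x ∈ trig I := by
        have : x ∈ Subalgebra.toSubmodule (trig I).toSubalgebra := by rw [trig_coe]; exact hx
        exact this
      simp only [ContinuousMap.smul_apply]
      rw [integral_smul, integral_smul, ih hx']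
  -- Urysohn function
  have hK : IsCompact ((fun x => p * x) '' (E : Set (I → Circle))) :=
    hE.isCompact.image (continuous_const.mul continuous_id)
  have hdisj : Disjoint (E : Set (I → Circle)) ((fun x => p * x) '' (E : Set (I → Circle))) := by
    rw [Set.disjoint_left]
    rintro x hx ⟨y, hy, rfl⟩
    apply hp
    have := E.mul_mem hx (E.inv_mem hy)
    simpa using this
  obtain ⟨F, hF0, hF1, -⟩ := exists_continuous_zero_one_of_isClosed hE hK.isClosed hdisj
  let G : C(I → Circle, ℂ) := ⟨fun x => (F x : ℂ), by fun_prop⟩
  have hG : G ∈ (trig I).topologicalClosure := by rw [trig_dense]; trivial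
  have hG' : G ∈ closure ((trig I : StarSubalgebra ℂ C(I → Circle, ℂ)) : Set C(I → Circle, ℂ)) := hG
  rw [Metric.mem_closure_iff] at hG'
  obtain ⟨f, hf, hfG⟩ := hG' (1 / 4) (by norm_num)
  have hclose : ∀ q : I → Circle, ‖∫ e : E, G (q * e) ∂μ - ∫ e : E, f (q * e) ∂μ‖ ≤ 1 / 4 := by
    intro q
    rw [← integral_sub (hint G q) (hint f q)]
    refine (norm_integral_le_of_norm_le_const (C := 1 / 4)
      (Filter.Eventually.of_forall fun e => ?_)).trans ?_
    · have := ContinuousMap.dist_apply_le_dist (f := G) (g := f) (q * (e : I → Circle))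
      rw [dist_eq_norm] at this
      exact this.trans hfG.le
    · simp
  have hp1 : ∫ e : E, G (p * e) ∂μ = 1 := by
    have : ∀ e : E, G (p * e) = 1 := by
      intro e
      have := hF1 ⟨(e : I → Circle), e.2, rfl⟩
      simp only [Pi.one_apply] at this
      show ((F (p * e) : ℝ) : ℂ) = 1
      rw [this]; simp
    rw [integral_congr_ae (Filter.Eventually.of_forall this)]
    simp
  have h10 : ∫ e : E, G (1 * e) ∂μ = 0 := by
    have : ∀ e : E, G (1 * e) = 0 := by
      intro e
      have := hF0 e.2
      simp only [Pi.zero_apply] at this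
      show ((F (1 * e) : ℝ) : ℂ) = 0
      rw [one_mul, this]; simp
    rw [integral_congr_ae (Filter.Eventually.of_forall this)]
    simp
  have h1 := hclose p
  have h2 := hclose 1
  rw [hp1, htrig f hf] at h1
  rw [h10] at h2
  have h3 : ‖(1 : ℂ)‖ ≤ 1 / 4 + 1 / 4 := by
    calc ‖(1 : ℂ)‖ = ‖(1 - ∫ e : E, f (1 * e) ∂μ) - (0 - ∫ e : E, f (1 * e) ∂μ)‖ := by
          congr 1; ring
      _ ≤ _ := (norm_sub_le _ _).trans (add_le_add h1 h2)
  rw [norm_one] at h3
  norm_num at h3

/-- A subgroup of a power of the circle on which no nontrivial monomial vanishes is dense. -/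
theorem dense_of_mono (K : Subgroup (I → Circle))
    (h : ∀ n : I →₀ ℤ, (∀ x ∈ K, mono n x = 1) → n = 0) : Dense (K : Set (I → Circle)) := by
  have hE : IsClosed (K.topologicalClosure : Set (I → Circle)) := K.isClosed_topologicalClosure
  intro p
  by_contra hp
  have hp' : p ∉ K.topologicalClosure := hp
  obtain ⟨n, hn, hnp⟩ := bip K.topologicalClosure hE p hp'
  have h0 := h n (fun x hx => hn x (K.le_topologicalClosure hx))
  rw [h0, mono_zero] at hnp
  exact hnp rfl

/-- Continuous characters of a group carrying the topology induced by a homomorphism to a power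
of the circle are monomials. -/
theorem char_eq_mono {Y : Type} [CommGroup Y] [TopologicalSpace Y]
    (j : Y →* (I → Circle)) (hj : Topology.IsInducing j) (Φ : Y →* Circle) (hΦ : Continuous Φ) :
    ∃ n : I →₀ ℤ, ∀ y, Φ y = mono n (j y) := by
  classical
  -- the graph
  let g : Y →* (Option I → Circle) :=
    { toFun := fun y o => o.elim (Φ y) (fun i => j y i)
      map_one' := by
        funext o
        cases o <;> simp
      map_mul' := by
        intro a b
        funext o
        cases o <;> simp }
  let E : Subgroup (Option I → Circle) := g.range.topologicalClosure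
  have hE : IsClosed (E : Set (Option I → Circle)) := g.range.isClosed_topologicalClosure
  -- split of monomials
  have hsplit : ∀ (n : Option I →₀ ℤ) (x : Option I → Circle),
      mono n x = (x none) ^ (n none) * mono n.some (fun i => x (some i)) := by
    intro n x
    simp only [mono_apply]
    rw [Finsupp.prod_option_index]
    · intro o; simp
    · intro o a b; exact zpow_add _ _ _
  -- key claim: some element of the annihilator has `none` coordinate one
  by_cases hex : ∃ n : Option I →₀ ℤ, (∀ x ∈ E, mono n x = 1) ∧ n none = 1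
  · obtain ⟨n, hn, hn1⟩ := hex
    refine ⟨-n.some, fun y => ?_⟩
    have h1 := hn (g y) (g.range.le_topologicalClosure ⟨y, rfl⟩)
    rw [hsplit, hn1, zpow_one] at h1
    rw [mono_neg]
    exact eq_inv_of_mul_eq_one_left h1
  · exfalso
    -- the group of `none` coordinates
    let A : AddSubgroup ℤ :=
      { carrier := {k | ∃ n : Option I →₀ ℤ, (∀ x ∈ E, mono n x = 1) ∧ n none = k}
        zero_mem' := ⟨0, fun x _ => mono_zero x, rfl⟩
        add_mem' := by
          rintro a b ⟨n, hn, rfl⟩ ⟨m, hm, rfl⟩
          refine ⟨n + m, fun x hx => ?_, rfl⟩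
          rw [mono_add, hn x hx, hm x hx, one_mul]
        neg_mem' := by
          rintro a ⟨n, hn, rfl⟩
          refine ⟨-n, fun x hx => ?_, rfl⟩
          rw [mono_neg, hn x hx, inv_one] }
    have hA : (1 : ℤ) ∉ A := fun h => hex h
    -- an element of the circle different from one killed by all elements of `A`
    obtain ⟨ζ, hζ1, hζ⟩ : ∃ ζ : Circle, ζ ≠ 1 ∧ ∀ k ∈ A, ζ ^ k = 1 := by
      obtain ⟨d, hd⟩ := Int.subgroup_cyclic A
      by_cases hd0 : d = 0
      · refine ⟨Circle.exp Real.pi, Circle.exp_pi_ne_one, fun k hk => ?_⟩
        rw [hd, hd0, AddSubgroup.mem_closure_singleton] at hk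
        obtain ⟨m, rfl⟩ := hk
        rw [smul_zero, zpow_zero]
      · refine ⟨Circle.exp (2 * Real.pi / d), ?_, ?_⟩
        · intro h
          rw [Circle.exp_eq_one] at h
          obtain ⟨m, hm⟩ := h
          have hpi := Real.pi_pos
          have hdR : (d : ℝ) ≠ 0 := by exact_mod_cast hd0
          have h2 : (1 : ℝ) = m * d := by
            field_simp at hm
            linarith
          have h3 : (1 : ℤ) = m * d := by exact_mod_cast h2
          apply hA
          rw [hd, AddSubgroup.mem_closure_singleton]
          exact ⟨m, by rw [smul_eq_mul]; exact h3.symm⟩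
        · intro k hk
          rw [hd, AddSubgroup.mem_closure_singleton] at hk
          obtain ⟨m, rfl⟩ := hk
          rw [smul_eq_mul, mul_comm m d, zpow_mul]
          have : Circle.exp (2 * Real.pi / d) ^ d = 1 := by
            rw [← Circle.exp_intCast_mul]
            have hdR : (d : ℝ) ≠ 0 := by exact_mod_cast hd0
            have : (d : ℝ) * (2 * Real.pi / d) = 2 * Real.pi := by field_simp
            rw [this, Circle.exp_two_pi]
          rw [this, one_zpow]
    -- the point (ζ, 1)
    let p : Option I → Circle := fun o => o.elim ζ (fun _ => 1)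
    have hpE : p ∈ E := by
      by_contra hp
      obtain ⟨n, hn, hnp⟩ := bip E hE p hp
      apply hnp
      rw [hsplit]
      have h1 : ζ ^ (n none) = 1 := hζ _ ⟨n, hn, rfl⟩
      have h2 : mono n.some (fun i => p (some i)) = 1 := by
        have : (fun i => p (some i)) = (1 : I → Circle) := rfl
        rw [this, map_one]
      rw [h2, mul_one]
      exact h1
    -- contradiction with continuity
    obtain ⟨U, V, hU, hV, hζU, h1V, hUV⟩ := t2_separation hζ1
    have hnh : Φ ⁻¹' V ∈ nhds (1 : Y) := by
      refine hΦ.continuousAt.preimage_mem_nhds ?_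
      rw [map_one]
      exact hV.mem_nhds h1V
    rw [hj.nhds_eq_comap, Filter.mem_comap] at hnh
    obtain ⟨W, hW, hWV⟩ := hnh
    rw [map_one] at hW
    have hO : {x : Option I → Circle | x none ∈ U ∧ (fun i => x (some i)) ∈ interior W} ∈ nhds p := by
      refine IsOpen.mem_nhds ?_ ⟨hζU, mem_interior_iff_mem_nhds.2 hW⟩
      refine IsOpen.inter (hU.preimage (continuous_apply none)) (isOpen_interior.preimage ?_)
      exact continuous_pi fun i => continuous_apply (some i)
    have hpcl : p ∈ closure (g.range : Set (Option I → Circle)) := hpE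
    obtain ⟨x, hxO, ⟨y, rfl⟩⟩ := mem_closure_iff_nhds.1 hpcl _ hO
    have h1 : Φ y ∈ U := hxO.1
    have h2 : j y ∈ W := interior_subset hxO.2
    have h3 : Φ y ∈ V := hWV h2
    exact Set.disjoint_left.1 hUV h1 h3

end mono

end Pool.Agent.P5131b0
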