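import Mathlib

set_option autoImplicit false

namespace Pool.Agent.P5131b0

open Set

/-- Partition of a clopen set subordinate to finitely many cozero sets. -/
theorem exists_partition {X : Type*} [TopologicalSpace X]
    (hX : ∀ f : X → ℝ, Continuous f →
      ∃ U : Set X, IsClopen U ∧ f ⁻¹' {0} ⊆ U ∧ Disjoint U (f ⁻¹' {1}))
    (n : ℕ) : ∀ (f : Fin n → X → ℝ), (∀ i, Continuous (f i)) → ∀ W : Set X, IsClopen W →
      (∀ x ∈ W, ∃ i, f i x ≠ 0) →
      ∃ V : Fin n → Set X, (∀ i, IsClopen (V i)) ∧ (∀ i j, i ≠ j → Disjoint (V i) (V j)) ∧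
        (∀ x, x ∈ W ↔ ∃ i, x ∈ V i) ∧ ∀ i, ∀ x ∈ V i, f i x ≠ 0 := by
  classical
  induction n with
  | zero =>
    intro f _ W _ h
    refine ⟨fun i => i.elim0, fun i => i.elim0, fun i => i.elim0, fun x => ?_, fun i => i.elim0⟩
    constructor
    · intro hx
      obtain ⟨i, -⟩ := h x hx
      exact i.elim0
    · rintro ⟨i, -⟩
      exact i.elim0
  | succ n ih =>
    intro f hf W hW h
    have hh : Continuous (fun x => ∑ i : Fin n, |f i.succ x|) :=
      continuous_finsetSum _ fun i _ => (hf i.succ).abs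
    have hfr : ∀ S : Set X, IsClopen S → ∀ a ∈ frontier S, ∀ g : X → ℝ, g a = 0 := by
      intro S hS a ha
      rw [hS.frontier_eq] at ha
      exact ha.elim
    have ha : Continuous (W.indicator fun x => |f 0 x|) :=
      (hf 0).abs.indicator fun x hx => hfr W hW x hx (fun x => |f 0 x|)
    have hb1 : Continuous (W.indicator fun x => ∑ i : Fin n, |f i.succ x|) :=
      hh.indicator fun x hx => hfr W hW x hx (fun x => ∑ i : Fin n, |f i.succ x|)
    have hb2 : Continuous (Wᶜ.indicator fun _ : X => (1 : ℝ)) :=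
      continuous_const.indicator fun x hx => hfr _ hW.compl x hx (fun _ => 1)
    have hpos : ∀ x, 0 < W.indicator (fun x => |f 0 x|) x +
        (W.indicator (fun x => ∑ i : Fin n, |f i.succ x|) x + Wᶜ.indicator (fun _ => (1 : ℝ)) x) := by
      intro x
      by_cases hx : x ∈ W
      · have hx' : x ∉ Wᶜ := fun h' => h' hx
        rw [indicator_of_mem hx, indicator_of_mem hx, indicator_of_notMem hx', add_zero]
        have h0 : (0 : ℝ) ≤ ∑ i : Fin n, |f i.succ x| :=
          Finset.sum_nonneg fun i _ => abs_nonneg _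
        obtain ⟨i, hi⟩ := h x hx
        rcases Fin.eq_zero_or_eq_succ i with rfl | ⟨j, rfl⟩
        · have := abs_pos.2 hi
          linarith
        · have h1 := abs_pos.2 hi
          have h2 : |f j.succ x| ≤ ∑ i : Fin n, |f i.succ x| :=
            Finset.single_le_sum (f := fun i : Fin n => |f i.succ x|)
              (fun i _ => abs_nonneg _) (Finset.mem_univ j)
          have h3 := abs_nonneg (f 0 x)
          linarith
      · have hx' : x ∈ Wᶜ := hx
        rw [indicator_of_notMem hx, indicator_of_notMem hx, indicator_of_mem hx']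
        norm_num
    obtain ⟨W', hW', h0, h1⟩ := hX (fun x => W.indicator (fun x => |f 0 x|) x /
      (W.indicator (fun x => |f 0 x|) x +
        (W.indicator (fun x => ∑ i : Fin n, |f i.succ x|) x + Wᶜ.indicator (fun _ => (1 : ℝ)) x)))
      (ha.div (ha.add (hb1.add hb2)) fun x => (hpos x).ne')
    obtain ⟨V, hV1, hV2, hV3, hV4⟩ := ih (fun i => f i.succ) (fun i => hf _) (W ∩ W')
      (hW.inter hW') (by
      rintro x ⟨hx, hx'⟩
      by_contra hcon
      push Not at hcon
      have hs : ∑ i : Fin n, |f i.succ x| = 0 :=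
        Finset.sum_eq_zero fun i _ => by rw [hcon i, abs_zero]
      refine Set.disjoint_left.1 h1 hx' ?_
      rw [Set.mem_preimage, Set.mem_singleton_iff]
      have hx2 : x ∉ Wᶜ := fun h' => h' hx
      have hp := hpos x
      rw [indicator_of_mem hx, indicator_of_mem hx, indicator_of_notMem hx2, hs] at hp ⊢
      rw [add_zero, add_zero] at hp ⊢
      exact div_self hp.ne')
    refine ⟨Fin.cons (W \ W') V, ?_, ?_, ?_, ?_⟩
    · intro i
      rcases Fin.eq_zero_or_eq_succ i with rfl | ⟨j, rfl⟩
      · exact hW.diff hW'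
      · exact hV1 j
    · have key : ∀ j, Disjoint (W \ W') (V j) := by
        intro j
        rw [Set.disjoint_left]
        intro x hx hx'
        exact hx.2 (((hV3 x).2 ⟨j, hx'⟩).2)
      intro i j hij
      rcases Fin.eq_zero_or_eq_succ i with rfl | ⟨i', rfl⟩
      · rcases Fin.eq_zero_or_eq_succ j with rfl | ⟨j', rfl⟩
        · exact absurd rfl hij
        · exact key j'
      · rcases Fin.eq_zero_or_eq_succ j with rfl | ⟨j', rfl⟩
        · exact (key i').symm
        · exact hV2 i' j' fun h' => hij (by rw [h'])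
    · intro x
      constructor
      · intro hx
        by_cases hx' : x ∈ W'
        · obtain ⟨j, hj⟩ := (hV3 x).1 ⟨hx, hx'⟩
          exact ⟨j.succ, hj⟩
        · exact ⟨0, hx, hx'⟩
      · rintro ⟨i, hi⟩
        rcases Fin.eq_zero_or_eq_succ i with rfl | ⟨j, rfl⟩
        · exact hi.1
        · exact ((hV3 x).2 ⟨j, hi⟩).1
    · intro i x hx
      rcases Fin.eq_zero_or_eq_succ i with rfl | ⟨j, rfl⟩
      · intro hf0
        obtain ⟨hxW, hxW'⟩ : x ∈ W ∧ x ∉ W' := hx
        apply hxW'
        apply h0
        rw [Set.mem_preimage, Set.mem_singleton_iff]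
        rw [indicator_of_mem hxW, hf0, abs_zero, zero_div]
      · exact hV4 j x hx

end Pool.Agent.P5131b0
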