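import Mathlib

set_option autoImplicit false

/-! A rational subspace `V` of the reals, large in the sense of characters, together with a large
family of reals independent modulo `V`. -/

namespace Pool.Agent.P5131b0

open Set Filter Topology

/-- reals on which a sequence of integers converges to zero modulo one -/
def NN (a : ℕ → ℤ) : Set ℝ :=
  {s | Tendsto (fun n => Circle.exp (2 * Real.pi * (a n * s))) atTop (𝓝 1)}

theorem closed_part (a : ℕ → ℤ) (k : ℕ) :
    IsClosed {s : ℝ | ∀ n, k ≤ n → ‖(Circle.exp (2 * Real.pi * (a n * s)) : ℂ) - 1‖ ≤ 1} := by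
  have : {s : ℝ | ∀ n, k ≤ n → ‖(Circle.exp (2 * Real.pi * (a n * s)) : ℂ) - 1‖ ≤ 1}
      = ⋂ n, ⋂ (_ : k ≤ n), {s : ℝ | ‖(Circle.exp (2 * Real.pi * (a n * s)) : ℂ) - 1‖ ≤ 1} := by
    ext s; simp
  rw [this]
  refine isClosed_iInter fun n => isClosed_iInter fun _ => isClosed_le ?_ continuous_const
  fun_prop

theorem interior_part (a : ℕ → ℤ) (ha : Tendsto (fun n => |(a n : ℝ)|) atTop atTop) (k : ℕ) :
    interior {s : ℝ | ∀ n, k ≤ n → ‖(Circle.exp (2 * Real.pi * (a n * s)) : ℂ) - 1‖ ≤ 1} = ∅ := by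
  by_contra hne
  obtain ⟨s, hs⟩ := Set.nonempty_iff_ne_empty.2 hne
  rw [mem_interior_iff_mem_nhds, Metric.mem_nhds_iff] at hs
  obtain ⟨δ, hδ, hball⟩ := hs
  obtain ⟨n, hn1, hn2⟩ := ((ha.eventually_gt_atTop (1 / δ)).and (eventually_ge_atTop k)).exists
  have han : (0 : ℝ) < |(a n : ℝ)| := (by positivity : (0 : ℝ) < 1 / δ).trans hn1
  have han0 : (a n : ℝ) ≠ 0 := abs_pos.1 han
  -- a point `t` near `s` with `a n * t = j + 1/2`
  set j : ℤ := ⌊(a n : ℝ) * s⌋ with hj
  set t : ℝ := ((j : ℝ) + 1 / 2) / a n with ht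
  have hat : (a n : ℝ) * t = j + 1 / 2 := by rw [ht]; field_simp
  have hdist : |t - s| < δ := by
    have h1 : (a n : ℝ) * (t - s) = j + 1 / 2 - a n * s := by rw [mul_sub, hat]
    have h2 : |(a n : ℝ)| * |t - s| ≤ 1 / 2 := by
      rw [← abs_mul, h1, abs_le]
      have h3 := Int.floor_le ((a n : ℝ) * s)
      have h4 := Int.lt_floor_add_one ((a n : ℝ) * s)
      constructor <;> linarith
    have h5 : 1 < |(a n : ℝ)| * δ := by
      rw [div_lt_iff₀ hδ] at hn1
      exact hn1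
    by_contra h6
    push Not at h6
    have : |(a n : ℝ)| * δ ≤ |(a n : ℝ)| * |t - s| := mul_le_mul_of_nonneg_left h6 han.le
    linarith
  have h7 := hball (show t ∈ Metric.ball s δ by rw [Metric.mem_ball, Real.dist_eq]; exact hdist) n hn2
  rw [hat] at h7
  have h8 : Circle.exp (2 * Real.pi * ((j : ℝ) + 1 / 2)) = Circle.exp Real.pi := by
    have : 2 * Real.pi * ((j : ℝ) + 1 / 2) = Real.pi + j * (2 * Real.pi) := by ring
    rw [this, Circle.exp_add, Circle.exp_int_mul_two_pi, mul_one]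
  rw [h8, Circle.coe_exp, Complex.exp_pi_mul_I] at h7
  norm_num at h7

theorem NN_subset (a : ℕ → ℤ) :
    NN a ⊆ ⋃ k, {s : ℝ | ∀ n, k ≤ n → ‖(Circle.exp (2 * Real.pi * (a n * s)) : ℂ) - 1‖ ≤ 1} := by
  intro s hs
  have hs' : Tendsto (fun n => Circle.exp (2 * Real.pi * (a n * s))) atTop (𝓝 1) := hs
  have h1 : Tendsto (fun n => ‖(Circle.exp (2 * Real.pi * (a n * s)) : ℂ) - 1‖) atTop (𝓝 0) := by
    have h2 : Tendsto (fun n => (Circle.exp (2 * Real.pi * (a n * s)) : ℂ)) atTop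
        (𝓝 ((1 : Circle) : ℂ)) := (continuous_subtype_val.tendsto _).comp hs'
    have h3 := (h2.sub_const (1 : ℂ)).norm
    simpa using h3
  have h4 := h1.eventually_lt_const (show (0 : ℝ) < 1 by norm_num)
  obtain ⟨k, hk⟩ := eventually_atTop.1 h4
  exact mem_iUnion.2 ⟨k, fun n hn => (hk n hn).le⟩

/-- Countably many sets `NN a` do not cover the line. -/
theorem exists_not_mem (a : ℕ → ℕ → ℤ)
    (ha : ∀ i, Tendsto (fun n => |(a i n : ℝ)|) atTop atTop) : ∃ s : ℝ, ∀ i, s ∉ NN (a i) := by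
  by_contra hcon
  push Not at hcon
  have hcov : (⋃ p : ℕ × ℕ, {s : ℝ | ∀ n, p.2 ≤ n →
      ‖(Circle.exp (2 * Real.pi * (a p.1 n * s)) : ℂ) - 1‖ ≤ 1}) = univ := by
    rw [eq_univ_iff_forall]
    intro s
    obtain ⟨i, hi⟩ := hcon s
    obtain ⟨k, hk⟩ := mem_iUnion.1 (NN_subset (a i) hi)
    exact mem_iUnion.2 ⟨(i, k), hk⟩
  obtain ⟨p, hp⟩ := nonempty_interior_of_iUnion_of_closed
    (fun p : ℕ × ℕ => closed_part (a p.1) p.2) hcov
  rw [interior_part (a p.1) (ha p.1) p.2] at hp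
  exact hp.ne_empty rfl

theorem exists_space (J : Type) (hJ : Cardinal.mk J ≤ Cardinal.continuum) :
    ∃ (V : Submodule ℚ ℝ) (h : J → ℝ), (1 : ℝ) ∈ V ∧
      (∀ q : J →₀ ℚ, (q.sum fun j c => (c : ℝ) * h j) ∈ V → q = 0) ∧
      ∀ a : ℕ → ℤ, Tendsto (fun n => |(a n : ℝ)|) atTop atTop → ∃ u ∈ V, u ∉ NN a := by
  classical
  let B0 := Module.Basis.ofVectorSpace ℚ ℝ
  have hcard : Cardinal.mk (Module.Basis.ofVectorSpaceIndex ℚ ℝ) = Cardinal.mk (ℕ × ℝ) := by
    have h1 := B0.mk_eq_rank''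
    rw [Real.rank_rat_real] at h1
    rw [h1, Cardinal.mk_prod, Cardinal.mk_real]
    simp
  obtain ⟨eq⟩ := Cardinal.eq.1 hcard
  let B : Module.Basis (ℕ × ℝ) ℚ ℝ := B0.reindex eq
  let S : ℕ → Set (ℕ × ℝ) := fun i => {p | p.1 ≤ i}
  let W : ℕ → Submodule ℚ ℝ := fun i => Submodule.span ℚ (B '' S i)
  have hWmono : ∀ i j, i ≤ j → W i ≤ W j := fun i j hij =>
    Submodule.span_mono (image_mono fun p (hp : p.1 ≤ i) => hp.trans hij)
  have hWcov : ∀ x : ℝ, ∃ i, x ∈ W i := by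
    intro x
    refine ⟨(B.repr x).support.sup Prod.fst, ?_⟩
    rw [B.mem_span_image]
    intro p hp
    exact Finset.le_sup (f := Prod.fst) hp
  obtain ⟨i0, hi0⟩ : ∃ i, ∀ a : ℕ → ℤ, Tendsto (fun n => |(a n : ℝ)|) atTop atTop →
      ∃ u ∈ W i, u ∉ NN a := by
    by_contra hcon
    push Not at hcon
    choose a ha hsub using hcon
    obtain ⟨s, hs⟩ := exists_not_mem a ha
    obtain ⟨i, hi⟩ := hWcov s
    exact hs i (hsub i s hi)
  obtain ⟨i1, hi1⟩ := hWcov 1
  let i := max i0 i1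
  -- injection of `J` in the reals
  have hJ' : Cardinal.mk J ≤ Cardinal.mk ℝ := by rw [Cardinal.mk_real]; exact hJ
  obtain ⟨f⟩ := Cardinal.le_def _ _ |>.1 hJ'
  let g : J → ℕ × ℝ := fun j => (i + 1, f j)
  have hg : Function.Injective g := by
    intro j j' hjj
    apply f.injective
    exact congrArg Prod.snd hjj
  refine ⟨W i, fun j => B (g j), hWmono i1 i (le_max_right _ _) hi1, ?_, ?_⟩
  · intro q hq
    have h1 : (q.sum fun j c => (c : ℝ) * B (g j)) = Finsupp.linearCombination ℚ B (q.mapDomain g) := by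
      rw [Finsupp.linearCombination_mapDomain, Finsupp.linearCombination_apply]
      refine Finsupp.sum_congr fun j _ => ?_
      rw [Rat.smul_def]
      rfl
    rw [h1] at hq
    have h2 : B.repr (Finsupp.linearCombination ℚ B (q.mapDomain g)) = q.mapDomain g :=
      B.repr_linearCombination _
    have h3 := (B.mem_span_image.1 hq)
    rw [h2] at h3
    have h4 : q.mapDomain g = 0 := by
      ext p
      by_contra hp
      have hp1 : p ∈ ((q.mapDomain g).support : Set (ℕ × ℝ)) := by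
        simpa using hp
      have hp2 : p.1 ≤ i := h3 hp1
      have hp3 : p ∈ range g := by
        by_contra hpr
        exact hp (Finsupp.mapDomain_of_notMem_range q p hpr)
      obtain ⟨j, rfl⟩ := hp3
      have : i + 1 ≤ i := hp2
      omega
    exact Finsupp.mapDomain_injective hg (by rw [h4, Finsupp.mapDomain_zero])
  · intro a ha
    obtain ⟨u, hu, hua⟩ := hi0 a ha
    exact ⟨u, hWmono i0 i (le_max_left _ _) hu, hua⟩

end Pool.Agent.P5131b0
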