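import Mathlib
import Pool.Agent.Lib.P5131b0.Bip
import Pool.Agent.Lib.P5131b0.Reals

set_option autoImplicit false

/-! Patterns: sequences of integer vectors which are far from vanishing on suitable points. -/

namespace Pool.Agent.P5131b0

open Set Filter Topology

variable {I : Type}

/-- real pairing -/
noncomputable def pr (n : I →₀ ℤ) (v : I → ℝ) : ℝ := n.sum fun i k => (k : ℝ) * v i

theorem pr_add (m n : I →₀ ℤ) (v : I → ℝ) : pr (m + n) v = pr m v + pr n v := by
  unfold pr
  rw [Finsupp.sum_add_index']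
  · intro i; simp
  · intro i a b; push_cast; ring

theorem pr_zero (v : I → ℝ) : pr (0 : I →₀ ℤ) v = 0 := by simp [pr]

theorem pr_neg (n : I →₀ ℤ) (v : I → ℝ) : pr (-n) v = - pr n v := by
  have := pr_add n (-n) v
  rw [add_neg_cancel, pr_zero] at this
  linarith

theorem pr_sub (m n : I →₀ ℤ) (v : I → ℝ) : pr (m - n) v = pr m v - pr n v := by
  rw [sub_eq_add_neg, pr_add, pr_neg]; ring

theorem pr_add_right (n : I →₀ ℤ) (v w : I → ℝ) : pr n (fun i => v i + w i) = pr n v + pr n w := by
  unfold pr
  rw [← Finsupp.sum_add]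
  refine Finsupp.sum_congr fun i _ => ?_
  ring

theorem pr_single_right [DecidableEq I] (n : I →₀ ℤ) (i : I) (c : ℝ) :
    pr n (Pi.single i c) = n i * c := by
  unfold pr Finsupp.sum
  by_cases hi : i ∈ n.support
  · rw [Finset.sum_eq_single_of_mem i hi]
    · simp
    · intro j _ hj
      simp [hj]
  · have : n i = 0 := by simpa using hi
    rw [this, Finset.sum_eq_zero]
    · simp
    · intro j hj
      have : j ≠ i := fun h => hi (h ▸ hj)
      simp [this]

theorem pr_congr (n : I →₀ ℤ) (v w : I → ℝ) (h : ∀ i, n i ≠ 0 → v i = w i) : pr n v = pr n w := by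
  unfold pr
  refine Finsupp.sum_congr fun i hi => ?_
  rw [h i (by simpa using hi)]

theorem mono_exp (n : I →₀ ℤ) (v : I → ℝ) :
    mono n (fun i => Circle.exp (2 * Real.pi * v i)) = Circle.exp (2 * Real.pi * pr n v) := by
  classical
  rw [mono_apply]
  unfold pr Finsupp.prod Finsupp.sum
  induction n.support using Finset.induction_on with
  | empty => simp
  | insert a s ha ih =>
    rw [Finset.prod_insert ha, Finset.sum_insert ha, ih, mul_add, Circle.exp_add]
    congr 1
    change Circle.exp (2 * Real.pi * v a) ^ (n a) = Circle.exp (2 * Real.pi * ((n a : ℝ) * v a))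
    rw [← Circle.exp_intCast_mul]
    congr 1
    ring

/-- first type of sequences -/
def TypeI (s : ℕ → I →₀ ℤ) : Prop :=
  ∃ r : ℕ → I, (∀ n, s n (r n) ≠ 0) ∧ ∀ k n, k < n → s k (r n) = 0

/-- second type of sequences -/
def TypeII (s : ℕ → I →₀ ℤ) : Prop := ∃ i, Tendsto (fun n => |((s n i : ℤ) : ℝ)|) atTop atTop

theorem norm_exp_sub_one (y : ℝ) (h1 : 1 / 4 ≤ y) (h2 : y ≤ 3 / 4) :
    1 ≤ ‖(Circle.exp (2 * Real.pi * y) : ℂ) - 1‖ := by
  have hre : ((Circle.exp (2 * Real.pi * y) : ℂ) - 1).re = Real.cos (2 * Real.pi * y) - 1 := by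
    rw [Circle.coe_exp, Complex.sub_re, Complex.one_re, Complex.exp_ofReal_mul_I_re]
  have hcos : Real.cos (2 * Real.pi * y) ≤ 0 := by
    have hpi := Real.pi_pos
    apply Real.cos_nonpos_of_pi_div_two_le_of_le
    · nlinarith
    · nlinarith
  have := Complex.abs_re_le_norm ((Circle.exp (2 * Real.pi * y) : ℂ) - 1)
  rw [hre] at this
  have h3 := neg_abs_le (Real.cos (2 * Real.pi * y) - 1)
  have h4 : |Real.cos (2 * Real.pi * y) - 1| = 1 - Real.cos (2 * Real.pi * y) := by
    rw [abs_of_nonpos (by linarith)]; ring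
  rw [h4] at this
  linarith

theorem exists_rat_good (c0 l : ℝ) (hl : l ≠ 0) :
    ∃ c : ℚ, c ≠ 0 ∧ 1 ≤ ‖(Circle.exp (2 * Real.pi * (c0 + c * l)) : ℂ) - 1‖ := by
  have hopen : IsOpen ({x : ℝ | 1 / 4 < c0 + x * l ∧ c0 + x * l < 3 / 4} ∩ {0}ᶜ) := by
    refine IsOpen.inter (IsOpen.inter ?_ ?_) isOpen_compl_singleton
    · exact isOpen_lt continuous_const (continuous_const.add (continuous_id.mul continuous_const))
    · exact isOpen_lt (continuous_const.add (continuous_id.mul continuous_const)) continuous_const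
  have hne : ({x : ℝ | 1 / 4 < c0 + x * l ∧ c0 + x * l < 3 / 4} ∩ {0}ᶜ).Nonempty := by
    by_cases h0 : (1 / 2 - c0) / l = 0
    · refine ⟨(5 / 8 - c0) / l, ⟨?_, ?_⟩, ?_⟩
      · rw [div_mul_cancel₀ _ hl]; norm_num
      · rw [div_mul_cancel₀ _ hl]; norm_num
      · simp only [mem_compl_iff, mem_singleton_iff]
        intro h1
        have h2 : 1 / 2 - c0 = 0 := (div_eq_zero_iff.1 h0).resolve_right hl
        have h3 : 5 / 8 - c0 = 0 := (div_eq_zero_iff.1 h1).resolve_right hl
        linarith
    · refine ⟨(1 / 2 - c0) / l, ⟨?_, ?_⟩, h0⟩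
      · rw [div_mul_cancel₀ _ hl]; norm_num
      · rw [div_mul_cancel₀ _ hl]; norm_num
  obtain ⟨c, hc⟩ := Rat.denseRange_cast.exists_mem_open hopen hne
  refine ⟨c, ?_, norm_exp_sub_one _ hc.1.1.le hc.1.2.le⟩
  rintro rfl
  exact hc.2 (by simp)

theorem patI (s : ℕ → I →₀ ℤ) (r : ℕ → I) (hr1 : ∀ n, s n (r n) ≠ 0)
    (hr2 : ∀ k n, k < n → s k (r n) = 0) (m : I →₀ ℤ) (h : I → ℝ) (hh : ∀ i, h i ≠ 0) :
    ∃ q : I → ℚ, (∀ i, q i ≠ 0) ∧ ∀ n, m (r n) = 0 →
      1 ≤ ‖(Circle.exp (2 * Real.pi * pr (s n - m) (fun i => (q i : ℝ) * h i)) : ℂ) - 1‖ := by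
  classical
  have hrinj : Function.Injective r := by
    intro a b hab
    rcases lt_trichotomy a b with h1 | h1 | h1
    · exact absurd (hr2 a b h1) (by rw [← hab]; exact hr1 a)
    · exact h1
    · exact absurd (hr2 b a h1) (by rw [hab]; exact hr1 b)
  -- one step
  have hstep : ∀ (n : ℕ) (Q : I → ℚ), ∃ c : ℚ, c ≠ 0 ∧ (m (r n) = 0 →
      1 ≤ ‖(Circle.exp (2 * Real.pi * pr (s n - m)
        (fun i => ((Function.update Q (r n) c i : ℚ) : ℝ) * h i)) : ℂ) - 1‖) := by
    intro n Q
    by_cases hm : m (r n) = 0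
    · obtain ⟨c, hc0, hc⟩ := exists_rat_good
        (pr (s n - m) (fun i => ((Function.update Q (r n) 0 i : ℚ) : ℝ) * h i))
        ((s n (r n) : ℝ) * h (r n)) (mul_ne_zero (by exact_mod_cast hr1 n) (hh _))
      refine ⟨c, hc0, fun _ => ?_⟩
      have h1 : pr (s n - m) (fun i => ((Function.update Q (r n) c i : ℚ) : ℝ) * h i)
          = pr (s n - m) (fun i => ((Function.update Q (r n) 0 i : ℚ) : ℝ) * h i)
            + c * ((s n (r n) : ℝ) * h (r n)) := by
        have h2 : (fun i => ((Function.update Q (r n) c i : ℚ) : ℝ) * h i)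
            = fun i => ((Function.update Q (r n) 0 i : ℚ) : ℝ) * h i
              + Pi.single (M := fun _ => ℝ) (r n) (c * h (r n)) i := by
          funext i
          by_cases hi : i = r n
          · subst hi; simp
          · simp [Function.update_of_ne hi, Pi.single_eq_of_ne hi]
        rw [h2, pr_add_right, pr_single_right, Finsupp.sub_apply, hm, sub_zero]
        ring
      rw [h1]
      exact hc
    · exact ⟨1, one_ne_zero, fun h => absurd h hm⟩
  choose c hc0 hc using hstep
  obtain ⟨Q, hQz, hQs⟩ : ∃ Q : ℕ → I → ℚ, Q 0 = (fun _ => 1) ∧ ∀ n, Q (n + 1) =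
      if m (r n) = 0 then Function.update (Q n) (r n) (c n (Q n)) else Q n :=
    ⟨fun N => Nat.rec (fun _ => 1)
      (fun n Qn => if m (r n) = 0 then Function.update Qn (r n) (c n Qn) else Qn) N, rfl,
      fun n => rfl⟩
  have hQ0 : ∀ N i, (∀ k, k < N → m (r k) = 0 → r k ≠ i) → Q N i = 1 := by
    intro N
    induction N with
    | zero => intro i _; rw [hQz]
    | succ N ih =>
      intro i hi
      rw [hQs]
      have h1 : Q N i = 1 := ih i (fun k hk => hi k (by omega))
      split_ifs with hm
      · rw [Function.update_of_ne (hi N (by omega) hm).symm]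
        exact h1
      · exact h1
  have hQst : ∀ k d, Q (k + 1 + d) (r k) = Q (k + 1) (r k) := by
    intro k d
    induction d with
    | zero => rfl
    | succ d ih =>
      rw [← add_assoc, hQs]
      split_ifs with hm
      · have hne : r k ≠ r (k + 1 + d) := by
          intro h1
          have := hrinj h1
          omega
        rw [Function.update_of_ne hne]
        exact ih
      · exact ih
  have hQne : ∀ N i, Q N i ≠ 0 := by
    intro N
    induction N with
    | zero => intro i; rw [hQz]; exact one_ne_zero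
    | succ N ih =>
      intro i
      rw [hQs]
      split_ifs with hm
      · by_cases hi : i = r N
        · subst hi; rw [Function.update_self]; exact hc0 _ _
        · rw [Function.update_of_ne hi]; exact ih i
      · exact ih i
  let q : I → ℚ := fun i => if hi : ∃ n, r n = i then Q (hi.choose + 1) i else 1
  have hqr : ∀ k, q (r k) = Q (k + 1) (r k) := by
    intro k
    have hex : ∃ n, r n = r k := ⟨k, rfl⟩
    have h1 : q (r k) = Q (hex.choose + 1) (r k) := dif_pos hex
    have h2 : hex.choose = k := hrinj hex.choose_spec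
    rw [h1, h2]
  have hqn : ∀ i, (¬ ∃ n, r n = i) → q i = 1 := fun i hi => dif_neg hi
  refine ⟨q, ?_, ?_⟩
  · intro i
    by_cases hi : ∃ n, r n = i
    · obtain ⟨n, rfl⟩ := hi
      rw [hqr]; exact hQne _ _
    · rw [hqn i hi]; exact one_ne_zero
  · intro n hm
    have h1 := hc n (Q n) hm
    have h2 : Q (n + 1) = Function.update (Q n) (r n) (c n (Q n)) := by
      rw [hQs, if_pos hm]
    rw [← h2] at h1
    have h3 : pr (s n - m) (fun i => (q i : ℝ) * h i)
        = pr (s n - m) (fun i => ((Q (n + 1) i : ℚ) : ℝ) * h i) := by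
      refine pr_congr _ _ _ fun i hi => ?_
      have h4 : q i = Q (n + 1) i := by
        by_cases hex : ∃ k, r k = i
        · obtain ⟨k, rfl⟩ := hex
          rw [hqr]
          by_cases hkn : k ≤ n
          · obtain ⟨d, rfl⟩ := Nat.exists_eq_add_of_le hkn
            have := hQst k d
            rw [← this, show k + 1 + d = k + d + 1 by omega]
          · push Not at hkn
            have h5 : s n (r k) = 0 := hr2 n k hkn
            have h6 : m (r k) ≠ 0 := by
              intro h7
              apply hi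
              rw [Finsupp.sub_apply, h5, h7, sub_zero]
            have h8 : Q (k + 1) (r k) = 1 := by
              apply hQ0
              intro k' hk' hm' h9
              rw [hrinj h9] at hm'
              exact h6 hm'
            have h9 : Q (n + 1) (r k) = 1 := by
              apply hQ0
              intro k' hk' hm' h9
              rw [hrinj h9] at hm'
              exact h6 hm'
            rw [h8, h9]
        · rw [hqn i hex]
          symm
          apply hQ0
          intro k _ _ h5
          exact hex ⟨k, h5⟩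
      rw [h4]
    rw [h3]
    exact h1

theorem patII (V : Submodule ℚ ℝ)
    (hV : ∀ a : ℕ → ℤ, Tendsto (fun n => |(a n : ℝ)|) atTop atTop → ∃ u ∈ V, u ∉ NN a)
    (s : ℕ → I →₀ ℤ) (hs : TypeII s) (m : I →₀ ℤ) (h : I → ℝ) :
    ∃ u : I → ℝ, (∀ i, u i ∈ V) ∧
      ¬ Tendsto (fun n => Circle.exp (2 * Real.pi * pr (s n - m) (fun i => h i + u i))) atTop
        (𝓝 1) := by
  classical
  obtain ⟨i0, hi0⟩ := hs
  let a : ℕ → ℤ := fun n => s n i0 - m i0
  have ha : Tendsto (fun n => |(a n : ℝ)|) atTop atTop := by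
    have h1 : ∀ n, |((s n i0 : ℤ) : ℝ)| - |((m i0 : ℤ) : ℝ)| ≤ |(a n : ℝ)| := by
      intro n
      simp only [a]
      push_cast
      exact abs_sub_abs_le_abs_sub _ _
    exact tendsto_atTop_mono h1 (tendsto_atTop_add_const_right _ _ hi0)
  obtain ⟨u0, hu0, hu0a⟩ := hV a ha
  by_cases h0 : Tendsto (fun n => Circle.exp (2 * Real.pi * pr (s n - m) (fun i => h i + 0))) atTop
      (𝓝 1)
  · refine ⟨Pi.single i0 u0, ?_, ?_⟩
    · intro i
      by_cases hi : i = i0
      · subst hi; simpa using hu0
      · rw [Pi.single_eq_of_ne hi]; exact V.zero_mem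
    · intro h1
      apply hu0a
      have h2 := h1.mul h0.inv
      simp only [inv_one, mul_one] at h2
      refine h2.congr fun n => ?_
      rw [← Circle.exp_neg, ← Circle.exp_add]
      congr 1
      have h3 : pr (s n - m) (fun i => h i + Pi.single (M := fun _ => ℝ) i0 u0 i)
          = pr (s n - m) (fun i => h i + 0) + a n * u0 := by
        rw [pr_add_right]
        have : (fun i => h i + 0) = h := by funext i; simp
        rw [this, pr_single_right]
        simp [a]
      rw [h3]
      ring
  · exact ⟨fun _ => 0, fun _ => V.zero_mem, h0⟩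

theorem countable_supported (B : Set I) (hB : B.Countable) :
    {x : I →₀ ℤ | (x.support : Set I) ⊆ B}.Countable := by
  classical
  have : Countable B := hB.to_subtype
  have h2 : Countable (B →₀ ℤ) := inferInstance
  exact (Finsupp.restrictSupportEquiv B ℤ).countable_iff.2 h2

theorem exists_seq' (M : Set (I →₀ ℤ)) (hM : M.Infinite) :
    ∃ s : ℕ → I →₀ ℤ, (∀ n, s n ∈ M) ∧ Function.Injective s ∧
      (TypeI s ∨ (TypeII s ∧ M.Countable)) := by
  classical
  by_cases hA : ∀ C : Finset I, ∃ m ∈ M, ¬ m.support ⊆ C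
  · obtain ⟨f, hf1, hf2⟩ := exists_seq_of_forall_finset_exists
      (fun p : (I →₀ ℤ) × I => p.1 ∈ M ∧ p.1 p.2 ≠ 0) (fun p p' => p.1 p'.2 = 0) (by
        intro S _
        obtain ⟨m, hm, hmS⟩ := hA (S.biUnion fun p => p.1.support)
        rw [Finset.not_subset] at hmS
        obtain ⟨i, hi, hiS⟩ := hmS
        refine ⟨(m, i), ⟨hm, by simpa using hi⟩, fun p hp => ?_⟩
        by_contra hne
        apply hiS
        exact Finset.mem_biUnion.2 ⟨p, hp, by simpa using hne⟩)
    refine ⟨fun n => (f n).1, fun n => (hf1 n).1, ?_, Or.inl ⟨fun n => (f n).2, fun n => (hf1 n).2,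
      fun k n hkn => hf2 k n hkn⟩⟩
    intro a b hab
    simp only at hab
    rcases lt_trichotomy a b with h1 | h1 | h1
    · exact absurd (hf2 a b h1) (by rw [hab]; exact (hf1 b).2)
    · exact h1
    · exact absurd (hf2 b a h1) (by rw [← hab]; exact (hf1 a).2)
  · push Not at hA
    obtain ⟨C, hC⟩ := hA
    have hunb : ∃ i, ∀ N : ℕ, ∃ m ∈ M, N < (m i).natAbs := by
      by_contra hcon
      push Not at hcon
      choose N hN using hcon
      apply hM
      refine Set.Finite.subset (Finset.finite_toSet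
        (C.finsupp fun i => Finset.Icc (-(N i : ℤ)) (N i))) ?_
      intro m hm
      rw [Finset.mem_coe, Finset.mem_finsupp_iff]
      refine ⟨hC m hm, fun i _ => ?_⟩
      have := hN i m hm
      rw [Finset.mem_Icc]
      omega
    obtain ⟨i, hi⟩ := hunb
    obtain ⟨f, hf1, hf2⟩ := exists_seq_of_forall_finset_exists
      (fun m : I →₀ ℤ => m ∈ M) (fun m m' => (m i).natAbs < (m' i).natAbs) (by
        intro S _
        obtain ⟨m, hm, hmS⟩ := hi (S.sup fun m => (m i).natAbs)
        exact ⟨m, hm, fun p hp => (Finset.le_sup (f := fun m : I →₀ ℤ => (m i).natAbs) hp).trans_lt hmS⟩)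
    have hmono : StrictMono (fun n => (f n i).natAbs) := fun a b hab => hf2 a b hab
    have hcount : M.Countable :=
      (countable_supported (C : Set I) C.countable_toSet).mono fun m hm => by
        have := hC m hm
        exact_mod_cast this
    refine ⟨f, hf1, ?_, Or.inr ⟨⟨i, ?_⟩, hcount⟩⟩
    · intro a b hab
      exact hmono.injective (by simp only [hab])
    · have h1 : Tendsto (fun n => (((f n i).natAbs : ℕ) : ℝ)) atTop atTop :=
        tendsto_natCast_atTop_atTop.comp hmono.tendsto_atTop
      refine h1.congr fun n => ?_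
      rw [Nat.cast_natAbs]
      push_cast
      rfl

theorem exists_seq (M : Set (I →₀ ℤ)) (hM : M.Infinite) :
    ∃ s : ℕ → I →₀ ℤ, (∀ n, s n ∈ M) ∧ Function.Injective s ∧ (TypeI s ∨ TypeII s) := by
  obtain ⟨s, h1, h2, h3⟩ := exists_seq' M hM
  exact ⟨s, h1, h2, h3.imp id And.left⟩

end Pool.Agent.P5131b0
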