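import Mathlib
import Pool.Agent.Lib.P5131b0.Pattern

set_option autoImplicit false

/-! The construction of the matrix of values. -/

namespace Pool.Agent.P5131b0

open Set Filter Topology

theorem d1_exists {I : Type} (V : Submodule ℚ ℝ) (h1 : (1 : ℝ) ∈ V) (x : ℕ → I →₀ ℤ)
    (x0 : I →₀ ℤ) (hx : x0 ∉ AddSubgroup.closure (range x)) :
    ∃ ρ : I → ℝ, (∀ i, ρ i ∈ V) ∧ (∀ n, Circle.exp (2 * Real.pi * pr (x n) ρ) = 1) ∧
      Circle.exp (2 * Real.pi * pr x0 ρ) ≠ 1 := by
  classical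
  let A := AddSubgroup.closure (range x)
  have hne : (QuotientAddGroup.mk x0 : (I →₀ ℤ) ⧸ A) ≠ 0 := by
    rw [Ne, QuotientAddGroup.eq_zero_iff]
    exact hx
  obtain ⟨c, hc⟩ := CharacterModule.exists_character_apply_ne_zero_of_ne_zero hne
  have hrep : ∀ i : I, ∃ y : ℚ, (y : AddCircle (1 : ℚ))
      = c (QuotientAddGroup.mk (Finsupp.single i (1 : ℤ)) : (I →₀ ℤ) ⧸ A) := fun i =>
    QuotientAddGroup.mk_surjective _
  choose y hy using hrep
  let f1 : (I →₀ ℤ) →+ AddCircle (1 : ℚ) :=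
    (c : ((I →₀ ℤ) ⧸ A) →+ AddCircle (1 : ℚ)).comp (QuotientAddGroup.mk' A)
  let S : (I →₀ ℤ) →+ ℚ := Finsupp.liftAddHom fun i => (AddMonoidHom.mulRight (y i)).comp (Int.castAddHom ℚ)
  let f2 : (I →₀ ℤ) →+ AddCircle (1 : ℚ) := (QuotientAddGroup.mk' _).comp S
  have hf : f1 = f2 := by
    refine Finsupp.addHom_ext fun i k => ?_
    have h3 : (Finsupp.single i k : I →₀ ℤ) = k • Finsupp.single i 1 := by simp
    rw [h3, map_zsmul, map_zsmul]
    congr 1
    show c (QuotientAddGroup.mk (Finsupp.single i (1 : ℤ))) = ((S (Finsupp.single i 1) : ℚ) : AddCircle (1 : ℚ))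
    rw [← hy i]
    congr 1
    simp [S]
  have hpr : ∀ z : I →₀ ℤ, pr z (fun i => ((y i : ℚ) : ℝ)) = ((S z : ℚ) : ℝ) := by
    intro z
    simp only [S, Finsupp.liftAddHom_apply, pr, Finsupp.sum]
    push_cast
    refine Finset.sum_congr rfl fun i _ => ?_
    simp
  have hone : ∀ z : I →₀ ℤ, Circle.exp (2 * Real.pi * pr z (fun i => ((y i : ℚ) : ℝ))) = 1 ↔
      c (QuotientAddGroup.mk z : (I →₀ ℤ) ⧸ A) = 0 := by
    intro z
    have h4 : c (QuotientAddGroup.mk z : (I →₀ ℤ) ⧸ A) = ((S z : ℚ) : AddCircle (1 : ℚ)) := by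
      have := DFunLike.congr_fun hf z
      exact this
    rw [h4, hpr, Circle.exp_eq_one, AddCircle.coe_eq_zero_iff]
    constructor
    · rintro ⟨n, hn⟩
      refine ⟨n, ?_⟩
      have hpi := Real.pi_pos
      have h5 : (2 * Real.pi) * ((S z : ℚ) : ℝ) = (2 * Real.pi) * n := by linarith
      have h6 : ((S z : ℚ) : ℝ) = n := mul_left_cancel₀ (by positivity) h5
      have h7 : S z = (n : ℚ) := by exact_mod_cast h6
      rw [h7]; simp
    · rintro ⟨n, hn⟩
      refine ⟨n, ?_⟩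
      have h7 : S z = (n : ℚ) := by rw [← hn]; simp
      rw [h7]
      push_cast
      ring
  refine ⟨fun i => ((y i : ℚ) : ℝ), ?_, ?_, ?_⟩
  · intro i
    have : ((y i : ℚ) : ℝ) = (y i) • (1 : ℝ) := by rw [Rat.smul_def, mul_one]
    show ((y i : ℚ) : ℝ) ∈ V
    rw [this]
    exact V.smul_mem _ h1
  · intro n
    rw [hone]
    have : (QuotientAddGroup.mk (x n) : (I →₀ ℤ) ⧸ A) = 0 := by
      rw [QuotientAddGroup.eq_zero_iff]
      exact AddSubgroup.subset_closure ⟨n, rfl⟩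
    rw [this, map_zero]
  · rw [Ne, hone]
    exact hc

theorem not_tendsto_of_far (f : ℕ → Circle) (h : ∀ᶠ n in atTop, 1 ≤ ‖(f n : ℂ) - 1‖) :
    ¬ Tendsto f atTop (𝓝 1) := by
  intro ht
  have h2 : Tendsto (fun n => (f n : ℂ)) atTop (𝓝 ((1 : Circle) : ℂ)) :=
    (continuous_subtype_val.tendsto _).comp ht
  have h3 := (h2.sub_const (1 : ℂ)).norm
  simp only [Circle.coe_one, sub_self, norm_zero] at h3
  have h4 := h3.eventually_lt_const (show (0 : ℝ) < 1 by norm_num)
  obtain ⟨n, hn1, hn2⟩ := (h.and h4).exists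
  linarith

theorem d2_exists {I : Type} (V : Submodule ℚ ℝ) (h1 : (1 : ℝ) ∈ V)
    (hV : ∀ a : ℕ → ℤ, Tendsto (fun n => |(a n : ℝ)|) atTop atTop → ∃ u ∈ V, u ∉ NN a)
    (x : ℕ → I →₀ ℤ) (hx : Function.Injective x) :
    ∃ ρ : I → ℝ, (∀ i, ρ i ∈ V) ∧
      ¬ Tendsto (fun n => Circle.exp (2 * Real.pi * pr (x n) ρ)) atTop (𝓝 1) := by
  classical
  obtain ⟨s, hs1, hs2, hs3⟩ := exists_seq (range x) (infinite_range_of_injective hx)
  choose k hk using hs1
  have hkinj : Function.Injective k := by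
    intro a b hab
    apply hs2
    rw [← hk a, ← hk b, hab]
  have hkt : Tendsto k atTop atTop := hkinj.nat_tendsto_atTop
  rcases hs3 with hI | hII
  · obtain ⟨r, hr1, hr2⟩ := hI
    obtain ⟨q, hq1, hq2⟩ := patI s r hr1 hr2 0 (fun _ => 1) (fun _ => one_ne_zero)
    refine ⟨fun i => (q i : ℝ) * 1, fun i => ?_, fun ht => ?_⟩
    · show (q i : ℝ) * 1 ∈ V
      rw [← Rat.smul_def]
      exact V.smul_mem _ h1
    · have h2 := ht.comp hkt
      refine not_tendsto_of_far _ (Eventually.of_forall fun n => ?_) h2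
      have h3 := hq2 n rfl
      rw [sub_zero, ← hk n] at h3
      exact h3
  · obtain ⟨u, hu1, hu2⟩ := patII V hV s hII 0 (fun _ => 0)
    refine ⟨u, hu1, fun ht => hu2 ?_⟩
    have h2 := ht.comp hkt
    refine h2.congr fun n => ?_
    simp only [Function.comp_apply, sub_zero, zero_add, hk n]

/-- dual side vectors -/
abbrev X := ℝ →₀ ℤ

/-- data for the generators -/
abbrev Dat2 := (ℕ → X) × X

/-- index set of generators -/
abbrev Xi := ℝ × Dat2

/-- free group side vectors -/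
abbrev FF := Xi →₀ ℤ

/-- data for the coordinates -/
abbrev Dat1 := Bool × (ℕ → FF)

theorem card_Xi : Cardinal.mk Xi = Cardinal.continuum := by
  have hX : Cardinal.mk X = Cardinal.continuum := by
    rw [Cardinal.mk_finsupp_of_infinite, Cardinal.mk_real, Cardinal.mk_int]
    exact max_eq_left Cardinal.aleph0_le_continuum
  have hs : Cardinal.mk (ℕ → X) = Cardinal.continuum := by
    rw [← Cardinal.power_def, hX, Cardinal.mk_nat, Cardinal.continuum_power_aleph0]
  show Cardinal.mk (ℝ × ((ℕ → X) × X)) = _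
  rw [← Cardinal.mul_def, ← Cardinal.mul_def, hs, hX, Cardinal.mk_real,
    Cardinal.continuum_mul_self, Cardinal.continuum_mul_self]

theorem card_FF : Cardinal.mk FF = Cardinal.continuum := by
  have : Infinite Xi := by
    rw [Cardinal.infinite_iff, card_Xi]; exact Cardinal.aleph0_le_continuum
  show Cardinal.mk (Xi →₀ ℤ) = _
  rw [Cardinal.mk_finsupp_of_infinite, card_Xi, Cardinal.mk_int]
  exact max_eq_left Cardinal.aleph0_le_continuum

theorem exists_cod : ∃ cod : ℝ → Dat1, Function.Surjective cod := by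
  have h1 : Cardinal.mk Dat1 ≤ Cardinal.mk ℝ := by
    show Cardinal.mk (Bool × (ℕ → FF)) ≤ _
    rw [← Cardinal.mul_def, ← Cardinal.power_def, card_FF, Cardinal.mk_nat,
      Cardinal.continuum_power_aleph0, Cardinal.mk_real, Cardinal.mk_bool]
    refine (Cardinal.mul_le_max_of_aleph0_le_right Cardinal.aleph0_le_continuum).trans ?_
    exact max_le ((Cardinal.natCast_lt_aleph0 (n := 2)).le.trans Cardinal.aleph0_le_continuum) le_rfl
  obtain ⟨f⟩ := (Cardinal.le_def _ _).1 h1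
  exact ⟨Function.invFun f, Function.invFun_surjective f.injective⟩

/-- set of special generators of a coordinate -/
def BB (d : Dat1) : Set Xi := {ξ | ∃ n, d.2 n ξ ≠ 0}

theorem countable_BB (d : Dat1) : (BB d).Countable := by
  have : BB d = ⋃ n, ((d.2 n).support : Set Xi) := by
    ext ξ; simp [BB]
  rw [this]
  exact countable_iUnion fun n => (d.2 n).support.countable_toSet

/-- the properties of the construction -/
structure Mat where
  cod : ℝ → Dat1
  hcod : Function.Surjective cod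
  V : Submodule ℚ ℝ
  h : Option (Xi × ℝ) → ℝ
  h1 : (1 : ℝ) ∈ V
  hind : ∀ q : Option (Xi × ℝ) →₀ ℚ, (q.sum fun j c => (c : ℝ) * h j) ∈ V → q = 0
  val : Xi → ℝ → ℝ
  hB : ∀ r ξ, ξ ∈ BB (cod r) → val ξ r ∈ V
  hnB : ∀ r ξ, ξ ∉ BB (cod r) → ∃ q : ℚ, q ≠ 0 ∧ val ξ r - q * h (some (ξ, r)) ∈ V
  D1 : ∀ r, (cod r).1 = false →
    (cod r).2 0 ∉ AddSubgroup.closure (range fun n => (cod r).2 (n + 1)) →
    (∀ n, Circle.exp (2 * Real.pi * pr ((cod r).2 (n + 1)) (fun ξ => val ξ r)) = 1) ∧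
    Circle.exp (2 * Real.pi * pr ((cod r).2 0) (fun ξ => val ξ r)) ≠ 1
  D2 : ∀ r, (cod r).1 = true → Function.Injective (cod r).2 →
    ¬ Tendsto (fun n => Circle.exp (2 * Real.pi * pr ((cod r).2 n) (fun ξ => val ξ r))) atTop (𝓝 1)
  P1 : ∀ (s : ℕ → X) (m : X), TypeI s →
    ∃ ξ : Xi, ∀ᶠ n in atTop, 1 ≤ ‖(Circle.exp (2 * Real.pi * pr (s n - m) (val ξ)) : ℂ) - 1‖
  P2 : ∀ (s : ℕ → X) (m : X), TypeII s →
    ∃ ξ : Xi, ¬ Tendsto (fun n => Circle.exp (2 * Real.pi * pr (s n - m) (val ξ))) atTop (𝓝 1)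

theorem exists_mat : Nonempty Mat := by
  classical
  obtain ⟨cod, hcod⟩ := exists_cod
  have hJ : Cardinal.mk (Option (Xi × ℝ)) ≤ Cardinal.continuum := by
    rw [Cardinal.mk_option, ← Cardinal.mul_def, card_Xi, Cardinal.mk_real,
      Cardinal.continuum_mul_self]
    exact (Cardinal.add_one_eq Cardinal.aleph0_le_continuum).le
  obtain ⟨V, h, h1, hind, hV⟩ := exists_space (Option (Xi × ℝ)) hJ
  have hh0 : ∀ j, h j ≠ 0 := by
    intro j hj
    have h2 := hind (Finsupp.single j 1) (by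
      rw [Finsupp.sum_single_index (by simp), hj, mul_zero]
      exact V.zero_mem)
    exact one_ne_zero (Finsupp.single_eq_zero.1 h2)
  -- special values
  have hrho : ∀ r : ℝ, ∃ ρ : Xi → ℝ, (∀ ξ, ρ ξ ∈ V) ∧
      ((cod r).1 = false →
        (cod r).2 0 ∉ AddSubgroup.closure (range fun n => (cod r).2 (n + 1)) →
        (∀ n, Circle.exp (2 * Real.pi * pr ((cod r).2 (n + 1)) ρ) = 1) ∧
        Circle.exp (2 * Real.pi * pr ((cod r).2 0) ρ) ≠ 1) ∧
      ((cod r).1 = true → Function.Injective (cod r).2 →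
        ¬ Tendsto (fun n => Circle.exp (2 * Real.pi * pr ((cod r).2 n) ρ)) atTop (𝓝 1)) := by
    intro r
    cases hb : (cod r).1 with
    | false =>
      by_cases hx : (cod r).2 0 ∈ AddSubgroup.closure (range fun n => (cod r).2 (n + 1))
      · exact ⟨fun _ => 0, fun _ => V.zero_mem, fun _ h2 => absurd hx h2, fun h2 => by simp at h2⟩
      · obtain ⟨ρ, h2, h3, h4⟩ := d1_exists V h1 _ _ hx
        exact ⟨ρ, h2, fun _ _ => ⟨h3, h4⟩, fun h2 => by simp at h2⟩
    | true =>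
      by_cases hx : Function.Injective (cod r).2
      · obtain ⟨ρ, h2, h3⟩ := d2_exists V h1 hV _ hx
        exact ⟨ρ, h2, fun h2 => by simp at h2, fun _ _ => h3⟩
      · exact ⟨fun _ => 0, fun _ => V.zero_mem, fun h2 => by simp at h2, fun _ h2 => absurd h2 hx⟩
  choose ρ hρV hρ1 hρ2 using hrho
  -- generic values
  have hgen : ∀ ξ : Xi, ∃ (q : ℝ → ℚ) (u : ℝ → ℝ), (∀ r, q r ≠ 0) ∧ (∀ r, u r ∈ V) ∧
      (TypeI ξ.2.1 → ∀ᶠ n in atTop, 1 ≤ ‖(Circle.exp (2 * Real.pi * pr (ξ.2.1 n - ξ.2.2)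
        (fun r => (q r : ℝ) * h (some (ξ, r)) + u r)) : ℂ) - 1‖) ∧
      (¬ TypeI ξ.2.1 → TypeII ξ.2.1 → ¬ Tendsto (fun n => Circle.exp (2 * Real.pi *
        pr (ξ.2.1 n - ξ.2.2) (fun r => (q r : ℝ) * h (some (ξ, r)) + u r))) atTop (𝓝 1)) := by
    intro ξ
    by_cases hI : TypeI ξ.2.1
    · obtain ⟨r, hr1, hr2⟩ := id hI
      obtain ⟨q, hq1, hq2⟩ := patI ξ.2.1 r hr1 hr2 ξ.2.2 (fun r => h (some (ξ, r))) (fun r => hh0 _)
      refine ⟨q, fun _ => 0, hq1, fun _ => V.zero_mem, fun _ => ?_, fun h2 => absurd hI h2⟩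
      have hrinj : Function.Injective r := by
        intro a b hab
        rcases lt_trichotomy a b with h1 | h1 | h1
        · exact absurd (hr2 a b h1) (by rw [← hab]; exact hr1 a)
        · exact h1
        · exact absurd (hr2 b a h1) (by rw [hab]; exact hr1 b)
      have hfin : {n | ξ.2.2 (r n) ≠ 0}.Finite := by
        have : {n | ξ.2.2 (r n) ≠ 0} = r ⁻¹' (ξ.2.2.support : Set ℝ) := by
          ext n; simp
        rw [this]
        exact (ξ.2.2.support.finite_toSet).preimage hrinj.injOn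
      have hev : ∀ᶠ n in atTop, ξ.2.2 (r n) = 0 := by
        rw [← Nat.cofinite_eq_atTop]
        have := hfin.eventually_cofinite_notMem
        filter_upwards [this] with n hn
        by_contra h2
        exact hn h2
      filter_upwards [hev] with n hn
      have := hq2 n hn
      simpa using this
    · by_cases hII : TypeII ξ.2.1
      · obtain ⟨u, hu1, hu2⟩ := patII V hV ξ.2.1 hII ξ.2.2 (fun r => h (some (ξ, r)))
        refine ⟨fun _ => 1, u, fun _ => one_ne_zero, hu1, fun h2 => absurd h2 hI, fun _ _ => ?_⟩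
        simpa using hu2
      · exact ⟨fun _ => 1, fun _ => 0, fun _ => one_ne_zero, fun _ => V.zero_mem,
          fun h2 => absurd h2 hI, fun _ h2 => absurd h2 hII⟩
  choose q u hq hu hg1 hg2 using hgen
  let val : Xi → ℝ → ℝ := fun ξ r =>
    if ξ ∈ BB (cod r) then ρ r ξ else (q ξ r : ℝ) * h (some (ξ, r)) + u ξ r
  have hvalB : ∀ r ξ, ξ ∈ BB (cod r) → val ξ r = ρ r ξ := fun r ξ h2 => if_pos h2
  have hvalnB : ∀ r ξ, ξ ∉ BB (cod r) → val ξ r = (q ξ r : ℝ) * h (some (ξ, r)) + u ξ r :=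
    fun r ξ h2 => if_neg h2
  have hprB : ∀ r n, pr ((cod r).2 n) (fun ξ => val ξ r) = pr ((cod r).2 n) (ρ r) := by
    intro r n
    exact pr_congr _ _ _ fun ξ hξ => hvalB r ξ ⟨n, hξ⟩
  -- choice of a generator free of conflicts
  have hfree : ∀ (s : ℕ → X) (m : X), ∃ y : ℝ, ∀ n r, (s n - m) r ≠ 0 →
      ((y, (s, m)) : Xi) ∉ BB (cod r) := by
    intro s m
    by_contra hcon
    push Not at hcon
    have hC : (⋃ n, ((s n - m).support : Set ℝ)).Countable :=
      countable_iUnion fun n => (s n - m).support.countable_toSet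
    have hU : (⋃ r ∈ (⋃ n, ((s n - m).support : Set ℝ)), BB (cod r)).Countable :=
      hC.biUnion fun r _ => countable_BB _
    have hinj : Function.Injective (fun y : ℝ => ((y, (s, m)) : Xi)) := by
      intro a b hab
      exact congrArg Prod.fst hab
    have h2 : (univ : Set ℝ).Countable := by
      refine (hU.preimage hinj).mono fun y _ => ?_
      obtain ⟨n, r, hr, hB⟩ := hcon y
      exact mem_iUnion₂.2 ⟨r, mem_iUnion.2 ⟨n, by simpa using hr⟩, hB⟩
    exact not_countable_univ h2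
  refine ⟨{ cod := cod, hcod := hcod, V := V, h := h, h1 := h1, hind := hind, val := val,
            hB := ?_, hnB := ?_, D1 := ?_, D2 := ?_, P1 := ?_, P2 := ?_ }⟩
  · intro r ξ hξ
    rw [hvalB r ξ hξ]; exact hρV r ξ
  · intro r ξ hξ
    refine ⟨q ξ r, hq ξ r, ?_⟩
    rw [hvalnB r ξ hξ, add_sub_cancel_left]
    exact hu ξ r
  · intro r hr1 hr2
    simp only [hprB]
    exact hρ1 r hr1 hr2
  · intro r hr1 hr2
    simp only [hprB]
    exact hρ2 r hr1 hr2
  · intro s m hs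
    obtain ⟨y, hy⟩ := hfree s m
    refine ⟨(y, (s, m)), ?_⟩
    filter_upwards [hg1 (y, (s, m)) hs] with n hn
    have : pr (s n - m) (val (y, (s, m))) = pr (s n - m)
        (fun r => (q (y, (s, m)) r : ℝ) * h (some ((y, (s, m)), r)) + u (y, (s, m)) r) :=
      pr_congr _ _ _ fun r hr => hvalnB r _ (hy n r hr)
    rw [this]
    exact hn
  · intro s m hs
    by_cases hI : TypeI s
    · obtain ⟨y, hy⟩ := hfree s m
      refine ⟨(y, (s, m)), not_tendsto_of_far _ ?_⟩
      filter_upwards [hg1 (y, (s, m)) hI] with n hn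
      have : pr (s n - m) (val (y, (s, m))) = pr (s n - m)
          (fun r => (q (y, (s, m)) r : ℝ) * h (some ((y, (s, m)), r)) + u (y, (s, m)) r) :=
        pr_congr _ _ _ fun r hr => hvalnB r _ (hy n r hr)
      rw [this]
      exact hn
    · obtain ⟨y, hy⟩ := hfree s m
      refine ⟨(y, (s, m)), ?_⟩
      have : ∀ n, pr (s n - m) (val (y, (s, m))) = pr (s n - m)
          (fun r => (q (y, (s, m)) r : ℝ) * h (some ((y, (s, m)), r)) + u (y, (s, m)) r) :=
        fun n => pr_congr _ _ _ fun r hr => hvalnB r _ (hy n r hr)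
      simp only [this]
      exact hg2 (y, (s, m)) hI hs

end Pool.Agent.P5131b0
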