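import Mathlib
import Pool.Agent.Lib.P5131b0.Matrix

set_option autoImplicit false

/-! The group and its algebraic properties. -/

namespace Pool.Agent.P5131b0

open Set Filter Topology

variable (C : Mat)

/-- the real matrix product -/
noncomputable def row (x : FF) (r : ℝ) : ℝ := pr x (fun ξ => C.val ξ r)

/-- the embedding -/
noncomputable def emb : Multiplicative FF →* (ℝ → Circle) where
  toFun x := fun r => Circle.exp (2 * Real.pi * row C x.toAdd r)
  map_one' := by
    funext r
    simp [row, pr_zero]
  map_mul' x y := by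
    funext r
    simp [row, pr_add, mul_add, Circle.exp_add]

theorem emb_apply (x : Multiplicative FF) (r : ℝ) :
    emb C x r = Circle.exp (2 * Real.pi * row C x.toAdd r) := rfl

theorem mono_emb (m : X) (x : Multiplicative FF) :
    mono m (emb C x) = Circle.exp (2 * Real.pi * pr m (row C x.toAdd)) :=
  mono_exp m (row C x.toAdd)

theorem row_single (ξ : Xi) : row C (Finsupp.single ξ 1) = C.val ξ := by
  funext r
  unfold row pr
  rw [Finsupp.sum_single_index (by simp)]
  simp

theorem key (m : X) (x : FF) (e : ℚ) (h : pr m (row C x) + (e : ℝ) * C.h none ∈ C.V) :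
    e = 0 ∧ ∀ r ξ, m r ≠ 0 → x ξ ≠ 0 → ξ ∈ BB (C.cod r) := by
  classical
  -- coefficients
  have hc : ∀ (r : ℝ) (ξ : Xi), ∃ c : ℚ, (ξ ∉ BB (C.cod r) → c ≠ 0) ∧
      C.val ξ r - (c : ℝ) * C.h (some (ξ, r)) ∈ C.V := by
    intro r ξ
    by_cases hξ : ξ ∈ BB (C.cod r)
    · refine ⟨0, fun h => absurd hξ h, ?_⟩
      have := C.hB r ξ hξ
      simpa using this
    · obtain ⟨q, hq, hq2⟩ := C.hnB r ξ hξ
      exact ⟨q, fun _ => hq, hq2⟩
  choose c hc1 hc2 using hc
  let q : Option (Xi × ℝ) →₀ ℚ := (∑ r ∈ m.support, ∑ ξ ∈ x.support,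
    Finsupp.single (some (ξ, r)) ((m r : ℚ) * (x ξ : ℚ) * c r ξ)) + Finsupp.single none e
  let L : (Option (Xi × ℝ) →₀ ℚ) →ₗ[ℚ] ℝ := Finsupp.linearCombination ℚ C.h
  have hL : ∀ q' : Option (Xi × ℝ) →₀ ℚ, (q'.sum fun j c => (c : ℝ) * C.h j) = L q' := by
    intro q'
    simp only [L, Finsupp.linearCombination_apply]
    refine Finsupp.sum_congr fun j _ => ?_
    rw [Rat.smul_def]
  have hLq : L q = (∑ r ∈ m.support, ∑ ξ ∈ x.support,
      ((m r : ℝ) * (x ξ : ℝ)) * ((c r ξ : ℝ) * C.h (some (ξ, r)))) + (e : ℝ) * C.h none := by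
    simp only [q, map_add, map_sum, L, Finsupp.linearCombination_single, Rat.smul_def]
    congr 1
    refine Finset.sum_congr rfl fun r _ => Finset.sum_congr rfl fun ξ _ => ?_
    push_cast
    ring
  have hprm : pr m (row C x) = ∑ r ∈ m.support, ∑ ξ ∈ x.support,
      ((m r : ℝ) * (x ξ : ℝ)) * C.val ξ r := by
    unfold pr Finsupp.sum
    refine Finset.sum_congr rfl fun r _ => ?_
    unfold row pr Finsupp.sum
    simp only []
    rw [Finset.mul_sum]
    refine Finset.sum_congr rfl fun ξ _ => ?_
    ring
  have hdiff : pr m (row C x) + (e : ℝ) * C.h none - L q ∈ C.V := by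
    have h1 : pr m (row C x) + (e : ℝ) * C.h none - L q = ∑ r ∈ m.support, ∑ ξ ∈ x.support,
        ((m r : ℚ) * (x ξ : ℚ)) • (C.val ξ r - (c r ξ : ℝ) * C.h (some (ξ, r))) := by
      rw [hLq, hprm]
      have h2 : ∀ a b c : ℝ, a + b - (c + b) = a - c := by intros; ring
      rw [h2, ← Finset.sum_sub_distrib]
      refine Finset.sum_congr rfl fun r _ => ?_
      rw [← Finset.sum_sub_distrib]
      refine Finset.sum_congr rfl fun ξ _ => ?_
      rw [Rat.smul_def]
      push_cast
      ring
    rw [h1]
    exact C.V.sum_mem fun r _ => C.V.sum_mem fun ξ _ => C.V.smul_mem _ (hc2 r ξ)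
  have hLV : L q ∈ C.V := by
    have := C.V.sub_mem h hdiff
    simpa using this
  have hq0 : q = 0 := C.hind q (by rw [hL]; exact hLV)
  have hqn : q none = e := by
    simp only [q, Finsupp.add_apply, Finsupp.single_eq_same, Finsupp.finsetSum_apply]
    rw [Finset.sum_eq_zero, zero_add]
    intro r _
    refine Finset.sum_eq_zero fun ξ _ => ?_
    rw [Finsupp.single_eq_of_ne (by simp)]
  have hqs : ∀ r ξ, m r ≠ 0 → x ξ ≠ 0 → q (some (ξ, r)) = (m r : ℚ) * (x ξ : ℚ) * c r ξ := by
    intro r ξ hr hξ
    simp only [q, Finsupp.add_apply, Finsupp.finsetSum_apply]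
    rw [Finsupp.single_eq_of_ne (by simp : some (ξ, r) ≠ none), add_zero,
      Finset.sum_eq_single_of_mem r (by simpa using hr),
      Finset.sum_eq_single_of_mem ξ (by simpa using hξ), Finsupp.single_eq_same]
    · intro ξ' _ hne
      rw [Finsupp.single_eq_of_ne]
      intro h1
      apply hne
      have := Option.some_injective _ h1
      exact (congrArg Prod.fst this).symm
    · intro r' _ hne
      refine Finset.sum_eq_zero fun ξ' _ => ?_
      rw [Finsupp.single_eq_of_ne]
      intro h1
      apply hne
      have := Option.some_injective _ h1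
      exact (congrArg Prod.snd this).symm
  refine ⟨by rw [← hqn, hq0]; rfl, fun r ξ hr hξ => ?_⟩
  by_contra hB
  have h1 := hqs r ξ hr hξ
  rw [hq0, Finsupp.zero_apply] at h1
  have h2 : (m r : ℚ) * (x ξ : ℚ) * c r ξ ≠ 0 :=
    mul_ne_zero (mul_ne_zero (by exact_mod_cast hr) (by exact_mod_cast hξ)) (hc1 r ξ hB)
  exact h2 h1.symm

theorem int_mem (n : ℤ) : (n : ℝ) ∈ C.V := by
  have : (n : ℝ) = ((n : ℚ)) • (1 : ℝ) := by rw [Rat.smul_def]; push_cast; ring
  rw [this]
  exact C.V.smul_mem _ C.h1

theorem exp_eq_one' {y : ℝ} (h : Circle.exp (2 * Real.pi * y) = 1) : ∃ n : ℤ, y = n := by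
  obtain ⟨n, hn⟩ := Circle.exp_eq_one.1 h
  refine ⟨n, ?_⟩
  have hpi := Real.pi_pos
  have h5 : (2 * Real.pi) * y = (2 * Real.pi) * n := by linarith
  exact mul_left_cancel₀ (by positivity) h5

theorem ker_supp (m : X) (x : Multiplicative FF) (h : mono m (emb C x) = 1) (r : ℝ) (hr : m r ≠ 0) :
    ((x.toAdd).support : Set Xi) ⊆ BB (C.cod r) := by
  rw [mono_emb] at h
  obtain ⟨n, hn⟩ := exp_eq_one' h
  have h1 : pr m (row C x.toAdd) + ((0 : ℚ) : ℝ) * C.h none ∈ C.V := by
    rw [hn]
    simpa using int_mem C n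
  intro ξ hξ
  exact (key C m x.toAdd 0 h1).2 r ξ hr (by simpa using hξ)

theorem emb_injective : Function.Injective (emb C) := by
  rw [injective_iff_map_eq_one]
  intro x hx
  by_contra hne
  obtain ⟨r, hr⟩ := C.hcod (false, fun n => if n = 0 then x.toAdd else 0)
  have h1 := C.D1 r (by rw [hr]) (by
    rw [hr]
    simp only [if_true]
    have : (range fun n : ℕ => if n + 1 = 0 then x.toAdd else (0 : FF)) = {0} := by
      ext z; simp [eq_comm]
    rw [this, AddSubgroup.closure_singleton_zero]
    intro h2
    exact hne h2)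
  have h2 := h1.2
  rw [hr] at h2
  simp only [if_true] at h2
  apply h2
  have h3 := congrFun hx r
  rw [emb_apply] at h3
  exact h3

/-- The group. -/
noncomputable def HH : Subgroup (ℝ → Circle) := (emb C).range

/-- elements of the group -/
noncomputable def el (x : Multiplicative FF) : HH C := ⟨emb C x, x, rfl⟩

theorem el_surj (g : HH C) : ∃ x, el C x = g := by
  obtain ⟨_, x, rfl⟩ := g
  exact ⟨x, rfl⟩

theorem el_inj : Function.Injective (el C) := by
  intro x y h
  exact emb_injective C (congrArg Subtype.val h)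

theorem el_mul (x y : Multiplicative FF) : el C (x * y) = el C x * el C y :=
  Subtype.ext (map_mul (emb C) x y)

theorem el_inv (x : Multiplicative FF) : el C x⁻¹ = (el C x)⁻¹ :=
  Subtype.ext (map_inv (emb C) x)

theorem el_one : el C 1 = 1 := Subtype.ext (map_one (emb C))

theorem closed_of_countable (K : Subgroup (HH C)) (hK : (K : Set (HH C)).Countable) :
    IsClosed (K : Set (HH C)) := by
  classical
  -- countable preimage
  have hpre : (el C ⁻¹' (K : Set (HH C))).Countable := hK.preimage (el_inj C)
  have hne : (el C ⁻¹' (K : Set (HH C))).Nonempty := ⟨1, by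
    show el C 1 ∈ K
    rw [el_one]; exact K.one_mem⟩
  obtain ⟨f, hf⟩ := hpre.exists_eq_range hne
  have hKeq : (K : Set (HH C)) = ⋂ r ∈ {r : ℝ | ∀ k ∈ K, k.1 r = 1}, {g : HH C | g.1 r = 1} := by
    ext g
    simp only [mem_iInter, SetLike.mem_coe]
    constructor
    · intro hg r hr
      exact hr g hg
    · intro hg
      by_contra hgK
      obtain ⟨x, rfl⟩ := el_surj C g
      obtain ⟨r, hr⟩ := C.hcod (false, fun n => Nat.casesOn n x.toAdd (fun k => (f k).toAdd))
      have hfm : ∀ k, el C (f k) ∈ K := fun k => by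
        have : f k ∈ el C ⁻¹' (K : Set (HH C)) := by rw [hf]; exact ⟨k, rfl⟩
        exact this
      have h1 := C.D1 r (by rw [hr]) (by
        rw [hr]
        intro hmem
        have hsub : AddSubgroup.closure (range fun n : ℕ => (f n).toAdd) ≤
            { carrier := {z : FF | el C (Multiplicative.ofAdd z) ∈ K}
              zero_mem' := by
                show el C 1 ∈ K
                rw [el_one]; exact K.one_mem
              add_mem' := by
                intro a b ha hb
                show el C (Multiplicative.ofAdd a * Multiplicative.ofAdd b) ∈ K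
                rw [el_mul]
                exact K.mul_mem ha hb
              neg_mem' := by
                intro a ha
                show el C (Multiplicative.ofAdd a)⁻¹ ∈ K
                rw [el_inv]
                exact K.inv_mem ha } := by
          rw [AddSubgroup.closure_le]
          rintro _ ⟨n, rfl⟩
          exact hfm n
        have h2 := hsub hmem
        exact hgK h2)
      rw [hr] at h1
      have h2 : ∀ k ∈ K, k.1 r = 1 := by
        intro k hk
        obtain ⟨y, rfl⟩ := el_surj C k
        have hy : y ∈ el C ⁻¹' (K : Set (HH C)) := hk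
        rw [hf] at hy
        obtain ⟨n, rfl⟩ := hy
        exact h1.1 n
      exact h1.2 (hg r h2)
  rw [hKeq]
  refine isClosed_biInter fun r _ => isClosed_eq ?_ continuous_const
  exact (continuous_apply r).comp continuous_subtype_val

theorem mono_zero_of_uncountable (K : Subgroup (HH C)) (hK : ¬ (K : Set (HH C)).Countable)
    (m : X) (hm : ∀ k ∈ K, mono m k.1 = 1) : m = 0 := by
  classical
  by_contra hne
  obtain ⟨r, hr⟩ := Finsupp.ne_iff.1 hne
  rw [Finsupp.zero_apply] at hr
  apply hK
  have h1 : (K : Set (HH C)) ⊆ (fun z : FF => el C (Multiplicative.ofAdd z)) ''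
      {z : FF | (z.support : Set Xi) ⊆ BB (C.cod r)} := by
    intro k hk
    obtain ⟨y, rfl⟩ := el_surj C k
    exact ⟨y.toAdd, ker_supp C m y (hm _ hk) r hr, rfl⟩
  exact ((countable_supported _ (countable_BB _)).image _).mono h1

theorem dense_image_of_uncountable (K : Subgroup (HH C)) (hK : ¬ (K : Set (HH C)).Countable) :
    Dense ((K.map (HH C).subtype : Subgroup (ℝ → Circle)) : Set (ℝ → Circle)) := by
  refine dense_of_mono _ fun m hm => mono_zero_of_uncountable C K hK m fun k hk => ?_
  exact hm _ ⟨k, hk, rfl⟩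

theorem dense_of_uncountable (K : Subgroup (HH C)) (hK : ¬ (K : Set (HH C)).Countable) :
    Dense (K : Set (HH C)) := by
  intro g
  rw [Topology.IsInducing.subtypeVal.closure_eq_preimage_closure_image]
  exact dense_image_of_uncountable C K hK g.1

theorem not_countable_HH : ¬ (univ : Set (HH C)).Countable := by
  intro h
  have h1 : (univ : Set (Multiplicative FF)).Countable := by
    have := h.preimage (el_inj C)
    simpa using this
  have h2 : Countable FF := by
    have : Countable (Multiplicative FF) := countable_univ_iff.1 h1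
    exact this
  have h3 := Cardinal.mk_le_aleph0 (α := FF)
  rw [card_FF] at h3
  exact absurd h3 (not_le.2 Cardinal.aleph0_lt_continuum)

theorem dense_HH : Dense (HH C : Set (ℝ → Circle)) := by
  have h1 := dense_image_of_uncountable C ⊤ (by
    rw [Subgroup.coe_top]
    exact not_countable_HH C)
  have h2 : ((⊤ : Subgroup (HH C)).map (HH C).subtype) = HH C := by
    ext x
    simp
  rw [h2] at h1
  exact h1

theorem uncountable_HH : ¬ (HH C : Set (ℝ → Circle)).Countable := by
  intro h
  apply not_countable_HH C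
  have : Countable (HH C) := h.to_subtype
  exact countable_univ

theorem coord_ne (r : ℝ) (g : HH C) : g.1 r ≠ Circle.exp (2 * Real.pi * C.h none) := by
  intro h
  obtain ⟨x, rfl⟩ := el_surj C g
  have h1 : Circle.exp (2 * Real.pi * row C x.toAdd r) = Circle.exp (2 * Real.pi * C.h none) := h
  have h2 : Circle.exp (2 * Real.pi * (row C x.toAdd r - C.h none)) = 1 := by
    rw [mul_sub, Circle.exp_sub, h1, div_self']
  obtain ⟨n, hn⟩ := exp_eq_one' h2
  have h3 : pr (Finsupp.single r 1) (row C x.toAdd) + ((-1 : ℚ) : ℝ) * C.h none ∈ C.V := by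
    have h4 : pr (Finsupp.single r (1 : ℤ)) (row C x.toAdd) = row C x.toAdd r := by
      unfold pr
      rw [Finsupp.sum_single_index (by simp)]
      simp
    rw [h4]
    have h5 : row C x.toAdd r + ((-1 : ℚ) : ℝ) * C.h none = n := by
      push_cast
      linarith
    rw [h5]
    exact int_mem C n
  have h6 := (key C _ _ _ h3).1
  norm_num at h6

end Pool.Agent.P5131b0
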