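import Mathlib
import Pool.Agent.Lib.P5131b0.Group

set_option autoImplicit false

/-! Compact subsets of the group and its dual are finite; reflexivity. -/

namespace Pool.Agent.P5131b0

open Set Filter Topology

theorem seq_compact {T ι : Type*} [TopologicalSpace T] (K : Set T) (hK : IsCompact K)
    (hc : K.Countable) (φ : ι → T → Circle) (hφ : ∀ i, Continuous (φ i))
    (hsep : ∀ x ∈ K, ∀ y ∈ K, x ≠ y → ∃ i, φ i x ≠ φ i y) (s : ℕ → T) (hs : ∀ n, s n ∈ K) :
    ∃ a ∈ K, ∃ k : ℕ → ℕ, StrictMono k ∧ Tendsto (fun n => s (k n)) atTop (𝓝 a) := by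
  classical
  have : Countable K := hc.to_subtype
  have : CompactSpace K := isCompact_iff_compactSpace.1 hK
  have h1 : ∀ p : {p : K × K // p.1 ≠ p.2}, ∃ i, φ i (p.1.1 : T) ≠ φ i (p.1.2 : T) := fun p =>
    hsep _ p.1.1.2 _ p.1.2.2 (fun h => p.2 (Subtype.ext h))
  choose i hi using h1
  let F : K → ({p : K × K // p.1 ≠ p.2} → Circle) := fun x p => φ (i p) x
  have hF : Continuous F := continuous_pi fun p => (hφ _).comp continuous_subtype_val
  have hinj : Function.Injective F := by
    intro x y hxy
    by_contra hne
    exact hi ⟨(x, y), hne⟩ (congrFun hxy ⟨(x, y), hne⟩)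
  have hemb : IsInducing F := (hF.isClosedEmbedding hinj).isInducing
  have : FirstCountableTopology K := hemb.firstCountableTopology
  obtain ⟨a, k, hk, hak⟩ := CompactSpace.tendsto_subseq (fun n => (⟨s n, hs n⟩ : K))
  exact ⟨a, a.2, k, hk, (continuous_subtype_val.tendsto a).comp hak⟩

variable (C : Mat)

/-- subgroup of elements supported in a set of generators -/
noncomputable def supp (B : Set Xi) : Subgroup (HH C) where
  carrier := (fun z : FF => el C (Multiplicative.ofAdd z)) '' {z : FF | (z.support : Set Xi) ⊆ B}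
  one_mem' := ⟨0, by simp, el_one C⟩
  mul_mem' := by
    classical
    rintro _ _ ⟨a, ha, rfl⟩ ⟨b, hb, rfl⟩
    refine ⟨a + b, ?_, el_mul C (Multiplicative.ofAdd a) (Multiplicative.ofAdd b)⟩
    intro ξ hξ
    have := Finsupp.support_add hξ
    rcases Finset.mem_union.1 this with h | h
    · exact ha h
    · exact hb h
  inv_mem' := by
    rintro _ ⟨a, ha, rfl⟩
    refine ⟨-a, ?_, el_inv C (Multiplicative.ofAdd a)⟩
    intro ξ hξ
    apply ha
    simpa using hξ

theorem supp_countable (B : Set Xi) (hB : B.Countable) : (supp C B : Set (HH C)).Countable :=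
  (countable_supported B hB).image _

theorem row_sub (x y : FF) (r : ℝ) : row C (x - y) r = row C x r - row C y r := pr_sub _ _ _

theorem continuous_coord (r : ℝ) : Continuous (fun g : HH C => g.1 r) :=
  (continuous_apply r).comp continuous_subtype_val

theorem finite_of_compact (K : Set (HH C)) (hK : IsCompact K) : K.Finite := by
  classical
  by_contra hinf
  have hinf' : K.Infinite := hinf
  let g : ℕ ↪ K := hinf'.natEmbedding
  have hx : ∀ n, ∃ x, el C x = g n := fun n => el_surj C _
  choose x hx using hx
  have hxinj : Function.Injective x := by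
    intro a b hab
    apply g.injective
    apply Subtype.ext
    rw [← hx a, ← hx b, hab]
  let B : Set Xi := ⋃ n, (((x n).toAdd).support : Set Xi)
  have hB : B.Countable := countable_iUnion fun n => ((x n).toAdd).support.countable_toSet
  have hcl : IsClosed (supp C B : Set (HH C)) := closed_of_countable C _ (supp_countable C B hB)
  obtain ⟨a, ⟨haK, haB⟩, k, hk, hak⟩ := seq_compact (K ∩ (supp C B : Set (HH C)))
    (hK.inter_right hcl) ((supp_countable C B hB).mono inter_subset_right)
    (fun (r : ℝ) (g : HH C) => g.1 r) (fun r => continuous_coord C r) (by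
      intro x _ y _ hxy
      by_contra hcon
      push Not at hcon
      exact hxy (Subtype.ext (funext hcon))) (fun n => el C (x n)) (by
      intro n
      refine ⟨?_, ?_⟩
      · rw [hx]; exact (g n).2
      · refine ⟨(x n).toAdd, ?_, rfl⟩
        exact subset_iUnion (fun n => (((x n).toAdd).support : Set Xi)) n)
  obtain ⟨y, rfl⟩ := el_surj C a
  obtain ⟨r, hr⟩ := C.hcod (true, fun n => (x (k n)).toAdd - y.toAdd)
  have h1 := C.D2 r (by rw [hr]) (by
    rw [hr]
    intro a b hab
    simp only [sub_left_inj] at hab
    have : x (k a) = x (k b) := hab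
    exact hk.injective (hxinj this))
  rw [hr] at h1
  apply h1
  have h2 : Tendsto (fun n => (el C (x (k n))).1 r) atTop (𝓝 ((el C y).1 r)) :=
    ((continuous_coord C r).tendsto _).comp hak
  have h3 := h2.mul_const (((el C y).1 r)⁻¹)
  rw [mul_inv_cancel] at h3
  refine h3.congr fun n => ?_
  show Circle.exp (2 * Real.pi * row C (x (k n)).toAdd r) *
    (Circle.exp (2 * Real.pi * row C y.toAdd r))⁻¹ = _
  rw [← Circle.exp_neg, ← Circle.exp_add]
  congr 1
  show _ = 2 * Real.pi * row C ((x (k n)).toAdd - y.toAdd) r
  rw [row_sub]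
  ring

/-- characters -/
noncomputable def chi (m : X) : PontryaginDual (HH C) where
  toMonoidHom := (mono m).comp (HH C).subtype
  continuous_toFun := (continuous_mono m).comp continuous_subtype_val

theorem chi_apply (m : X) (g : HH C) : chi C m g = mono m g.1 := rfl

theorem chi_inj : Function.Injective (chi C) := by
  intro m n hmn
  have h := mono_zero_of_uncountable C ⊤ (by
    rw [Subgroup.coe_top]; exact not_countable_HH C) (m - n) (by
    intro k _
    have h1 : chi C m k = chi C n k := by rw [hmn]
    rw [chi_apply, chi_apply] at h1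
    rw [sub_eq_add_neg, mono_add, mono_neg, h1, mul_inv_cancel])
  exact sub_eq_zero.1 h

theorem chi_surj (χ : PontryaginDual (HH C)) : ∃ m, chi C m = χ := by
  obtain ⟨m, hm⟩ := char_eq_mono (HH C).subtype Topology.IsInducing.subtypeVal
    (χ : HH C →ₜ* Circle).toMonoidHom (χ : HH C →ₜ* Circle).continuous_toFun
  refine ⟨m, ?_⟩
  exact (DFunLike.ext _ _ fun g => (hm g).symm : (chi C m : HH C →ₜ* Circle) = χ)

theorem continuous_evd {G : Type} [CommGroup G] [TopologicalSpace G] (g : G) :
    Continuous (fun χ : PontryaginDual G => χ g) := by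
  have h1 : Continuous (fun f : C(G, Circle) => f g) := continuous_eval_const g
  exact h1.comp (ContinuousMonoidHom.isInducing_toContinuousMap G Circle).continuous

theorem chi_el (m : X) (ξ : Xi) : chi C m (el C (Multiplicative.ofAdd (Finsupp.single ξ 1))) =
    Circle.exp (2 * Real.pi * pr m (C.val ξ)) := by
  rw [chi_apply]
  show mono m (emb C _) = _
  rw [mono_emb, toAdd_ofAdd, row_single]

theorem finite_of_compact_dual (K : Set (PontryaginDual (HH C))) (hK : IsCompact K) :
    K.Finite := by
  classical
  by_contra hinf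
  have hM : (chi C ⁻¹' K).Infinite := by
    intro h
    apply hinf
    have := h.image (chi C)
    refine this.subset fun χ hχ => ?_
    obtain ⟨m, rfl⟩ := chi_surj C χ
    exact ⟨m, hχ, rfl⟩
  obtain ⟨s, hs1, hs2, hs3⟩ := exists_seq' _ hM
  have hdiff : ∀ (a m : X) (ξ : Xi),
      chi C a (el C (Multiplicative.ofAdd (Finsupp.single ξ 1))) *
        (chi C m (el C (Multiplicative.ofAdd (Finsupp.single ξ 1))))⁻¹ =
      Circle.exp (2 * Real.pi * pr (a - m) (C.val ξ)) := by
    intro a m ξ
    rw [chi_el, chi_el, ← Circle.exp_neg, ← Circle.exp_add, pr_sub]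
    congr 1
    ring
  rcases hs3 with hI | ⟨hII, hcM⟩
  · obtain ⟨χ, hχK, hχ⟩ := hK.exists_mapClusterPt (f := atTop) (u := fun n => chi C (s n)) (by
      rw [le_principal_iff]
      exact Filter.mem_map.2 (Eventually.of_forall fun n => hs1 n))
    obtain ⟨m, rfl⟩ := chi_surj C χ
    obtain ⟨ξ, hξ⟩ := C.P1 s m hI
    have h1 : Continuous (fun χ : PontryaginDual (HH C) =>
        χ (el C (Multiplicative.ofAdd (Finsupp.single ξ 1))) *
        (chi C m (el C (Multiplicative.ofAdd (Finsupp.single ξ 1))))⁻¹) :=
      (continuous_evd _).mul continuous_const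
    have h2 := hχ.continuousAt_comp h1.continuousAt
    rw [mul_inv_cancel] at h2
    have hO : {z : Circle | ‖(z : ℂ) - 1‖ < 1} ∈ 𝓝 (1 : Circle) := by
      refine IsOpen.mem_nhds ?_ (by simp)
      exact isOpen_lt ((continuous_subtype_val.sub continuous_const).norm) continuous_const
    have h3 := h2.frequently hO
    obtain ⟨n, hn1, hn2⟩ := (h3.and_eventually hξ).exists
    simp only [Function.comp_apply] at hn1
    rw [hdiff] at hn1
    linarith
  · have hcK : K.Countable := by
      refine (hcM.image (chi C)).mono fun χ hχ => ?_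
      obtain ⟨m, rfl⟩ := chi_surj C χ
      exact ⟨m, hχ, rfl⟩
    obtain ⟨χ, hχK, k, hk, hlim⟩ := seq_compact K hK hcK
      (fun (g : HH C) (χ : PontryaginDual (HH C)) => χ g) (fun g => continuous_evd g) (by
        intro χ _ ψ _ hne
        by_contra hcon
        push Not at hcon
        exact hne (DFunLike.ext (F := HH C →ₜ* Circle) _ _ hcon)) (fun n => chi C (s n)) hs1
    obtain ⟨m, rfl⟩ := chi_surj C χ
    have hII' : TypeII (fun n => s (k n)) := by
      obtain ⟨i, hi⟩ := hII
      exact ⟨i, hi.comp hk.tendsto_atTop⟩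
    obtain ⟨ξ, hξ⟩ := C.P2 (fun n => s (k n)) m hII'
    apply hξ
    have h2 := (((continuous_evd
      (el C (Multiplicative.ofAdd (Finsupp.single ξ 1)))).tendsto _).comp hlim).mul_const
        ((chi C m (el C (Multiplicative.ofAdd (Finsupp.single ξ 1))))⁻¹)
    rw [mul_inv_cancel] at h2
    refine h2.congr fun n => ?_
    simp only [Function.comp_apply]
    exact hdiff _ _ _

theorem isInducing_coe {G : Type} [CommGroup G] [TopologicalSpace G]
    (hG : ∀ K : Set G, IsCompact K → K.Finite) :
    IsInducing (fun (χ : PontryaginDual G) (g : G) => χ g) := by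
  have h1 : IsInducing (fun (f : C(G, Circle)) (g : G) => f g) := by
    refine ⟨le_antisymm ?_ ?_⟩
    · rw [← continuous_iff_le_induced]
      exact continuous_pi fun g => continuous_eval_const g
    · rw [ContinuousMap.compactOpen_eq]
      refine le_generateFrom ?_
      rintro _ ⟨K, hK, U, hU, rfl⟩
      refine ⟨K.pi fun _ => U, isOpen_set_pi (hG K hK) fun _ _ => hU, ?_⟩
      ext f
      simp [Set.MapsTo, Set.mem_pi]
  exact h1.comp (ContinuousMonoidHom.isInducing_toContinuousMap G Circle)

/-- evaluation -/
noncomputable def ev : HH C →* PontryaginDual (PontryaginDual (HH C)) where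
  toFun g :=
    { toFun := fun χ => χ g
      map_one' := rfl
      map_mul' := fun _ _ => rfl
      continuous_toFun := continuous_evd g }
  map_one' := by
    refine DFunLike.ext (F := PontryaginDual (HH C) →ₜ* Circle) _ _ fun χ => ?_
    exact map_one (χ : HH C →ₜ* Circle)
  map_mul' a b := by
    refine DFunLike.ext (F := PontryaginDual (HH C) →ₜ* Circle) _ _ fun χ => ?_
    exact map_mul (χ : HH C →ₜ* Circle) a b

theorem ev_apply (g : HH C) (χ : PontryaginDual (HH C)) : ev C g χ = χ g := rfl

theorem continuous_ev : Continuous (ev C) := by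
  rw [(isInducing_coe (finite_of_compact_dual C)).continuous_iff]
  refine continuous_pi fun χ => ?_
  exact (χ : HH C →ₜ* Circle).continuous_toFun

theorem isInducing_ev : IsInducing (ev C) := by
  refine IsInducing.of_comp (g := fun (Ψ : PontryaginDual (PontryaginDual (HH C))) (r : ℝ) =>
    Ψ (chi C (Finsupp.single r 1))) (continuous_ev C) ?_ ?_
  · exact continuous_pi fun r => continuous_evd _
  · have : ((fun (Ψ : PontryaginDual (PontryaginDual (HH C))) (r : ℝ) =>
        Ψ (chi C (Finsupp.single r 1))) ∘ ev C) = fun g : HH C => g.1 := by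
      funext g r
      simp only [Function.comp_apply]
      rw [ev_apply, chi_apply, mono_single, zpow_one]
    rw [this]
    exact IsInducing.subtypeVal

theorem injective_ev : Function.Injective (ev C) := by
  intro a b hab
  apply Subtype.ext
  funext r
  have h : ev C a (chi C (Finsupp.single r 1)) = ev C b (chi C (Finsupp.single r 1)) := by rw [hab]
  rw [ev_apply, ev_apply, chi_apply, chi_apply, mono_single, mono_single, zpow_one, zpow_one] at h
  exact h

theorem surjective_ev : Function.Surjective (ev C) := by
  intro Ψ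
  let j : PontryaginDual (HH C) →* (HH C → Circle) :=
    { toFun := fun χ g => χ g
      map_one' := rfl
      map_mul' := fun _ _ => rfl }
  obtain ⟨n, hn⟩ := char_eq_mono j (isInducing_coe (finite_of_compact C))
    (Ψ : PontryaginDual (HH C) →ₜ* Circle).toMonoidHom
    (Ψ : PontryaginDual (HH C) →ₜ* Circle).continuous_toFun
  refine ⟨n.prod fun h k => h ^ k, ?_⟩
  refine DFunLike.ext (F := PontryaginDual (HH C) →ₜ* Circle) _ _ fun χ => ?_
  refine Eq.trans ?_ (hn χ).symm
  show (χ : HH C →ₜ* Circle) (n.prod fun h k => h ^ k) = _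
  rw [mono_apply, Finsupp.prod, Finsupp.prod, map_prod]
  refine Finset.prod_congr rfl fun h _ => ?_
  rw [map_zpow]
  rfl

/-- evaluation as an isomorphism of topological groups -/
noncomputable def evEquiv : HH C ≃ₜ* PontryaginDual (PontryaginDual (HH C)) :=
  { MulEquiv.ofBijective (ev C) ⟨injective_ev C, surjective_ev C⟩ with
    continuous_toFun := continuous_ev C
    continuous_invFun := by
      have h := (Equiv.toHomeomorphOfIsInducing
        (Equiv.ofBijective (ev C) ⟨injective_ev C, surjective_ev C⟩) (isInducing_ev C)).symm.continuous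
      exact h }

theorem evEquiv_apply (g : HH C) (χ : PontryaginDual (HH C)) : evEquiv C g χ = χ g := rfl

end Pool.Agent.P5131b0
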