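import Mathlib
import Pool.Agent.Lib.P5131b0.Group

set_option autoImplicit false

/-! Zero-dimensionality. -/

namespace Pool.Agent.P5131b0

open Set Filter Topology MeasureTheory

section general

variable {I : Type}

theorem ccc (S : Set (Set (I → Circle))) (hS : S.PairwiseDisjoint id) (hO : ∀ W ∈ S, IsOpen W)
    (hne : ∀ W ∈ S, W.Nonempty) : S.Countable := by
  classical
  let _ : MeasurableSpace (I → Circle) := borel _
  have _ : BorelSpace (I → Circle) := ⟨rfl⟩
  let μ : Measure (I → Circle) := Measure.haarMeasure ⊤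
  have hμ1 : IsProbabilityMeasure μ := ⟨by
    have := Measure.haarMeasure_self (G := I → Circle) (K₀ := ⊤)
    simpa using this⟩
  have h1 := Measure.countable_meas_pos_of_disjoint_iUnion (μ := μ) (As := fun W : S => (W : Set _))
    (fun W => (hO W W.2).measurableSet) (by
      intro a b hab
      exact hS a.2 b.2 (fun h => hab (Subtype.ext h)))
  have h2 : {W : S | 0 < μ (W : Set (I → Circle))} = univ := by
    ext W
    simp only [mem_univ, iff_true]
    exact (hO W W.2).measure_pos μ (hne W W.2)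
  rw [h2] at h1
  have := Set.countable_univ_iff.1 h1
  exact Set.countable_coe_iff.1 this

/-- sets depending on finitely many coordinates -/
def Dep (A : Set I) (W : Set (I → Circle)) : Prop :=
  ∀ x y : I → Circle, (∀ i ∈ A, x i = y i) → x ∈ W → y ∈ W

theorem Dep.mono {A B : Set I} {W : Set (I → Circle)} (h : Dep A W) (hAB : A ⊆ B) : Dep B W :=
  fun x y hxy hx => h x y (fun i hi => hxy i (hAB hi)) hx

theorem dep_closure (A : Set I) (W : Set (I → Circle)) (h : Dep A W) : Dep A (closure W) := by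
  intro x y hxy hx
  let t : I → Circle := x⁻¹ * y
  have ht : ∀ i ∈ A, t i = 1 := by
    intro i hi
    simp [t, hxy i hi]
  have hcont : Continuous (fun z : I → Circle => z * t) := continuous_id.mul continuous_const
  have h1 : MapsTo (fun z : I → Circle => z * t) W W := by
    intro z hz
    refine h z _ (fun i hi => ?_) hz
    simp [ht i hi]
  have h2 := h1.closure hcont hx
  have h3 : x * t = y := by simp [t]
  simpa [h3] using h2

theorem exists_countable_dep (O : Set (I → Circle)) (hO : IsOpen O) :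
    ∃ A : Set I, A.Countable ∧ Dep A (closure O) := by
  classical
  let 𝒮 : Set (Set (Set (I → Circle))) := {S | S.PairwiseDisjoint id ∧ ∀ W ∈ S,
    W ⊆ O ∧ IsOpen W ∧ W.Nonempty ∧ ∃ F : Finset I, Dep (F : Set I) W}
  obtain ⟨S, hS⟩ := zorn_subset 𝒮 (by
    intro c hc hchain
    refine ⟨⋃₀ c, ⟨?_, ?_⟩, fun s hs => subset_sUnion_of_mem hs⟩
    · rw [Set.pairwiseDisjoint_sUnion hchain.directedOn]
      intro s hs
      exact (hc hs).1
    · rintro W ⟨s, hs, hW⟩
      exact (hc hs).2 W hW)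
  have hSp := hS.prop
  have hcount : S.Countable := ccc S hSp.1 (fun W hW => (hSp.2 W hW).2.1)
    (fun W hW => (hSp.2 W hW).2.2.1)
  have hF : ∀ W : S, ∃ F : Finset I, Dep (F : Set I) (W : Set (I → Circle)) := fun W =>
    (hSp.2 W W.2).2.2.2
  choose F hF using hF
  have : Countable S := hcount.to_subtype
  let A : Set I := ⋃ W : S, (F W : Set I)
  have hA : A.Countable := countable_iUnion fun W => (F W).countable_toSet
  have hdep : Dep A (⋃₀ S) := by
    rintro x y hxy ⟨W, hW, hx⟩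
    exact ⟨W, hW, hF ⟨W, hW⟩ x y (fun i hi => hxy i (mem_iUnion.2 ⟨⟨W, hW⟩, hi⟩)) hx⟩
  have hcl : closure O = closure (⋃₀ S) := by
    refine subset_antisymm ?_ (closure_mono (sUnion_subset fun W hW => (hSp.2 W hW).1))
    refine closure_minimal ?_ isClosed_closure
    intro p hp
    by_contra hcon
    have hopen : IsOpen (O ∩ (closure (⋃₀ S))ᶜ) := hO.inter isClosed_closure.isOpen_compl
    obtain ⟨J, u, hu, hsub⟩ := isOpen_pi_iff.1 hopen p ⟨hp, hcon⟩
    let W : Set (I → Circle) := (J : Set I).pi u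
    have hWo : IsOpen W := isOpen_set_pi J.finite_toSet fun i hi => (hu i hi).1
    have hpW : p ∈ W := fun i hi => (hu i hi).2
    have hWS : insert W S ∈ 𝒮 := by
      refine ⟨?_, ?_⟩
      · refine (Set.pairwiseDisjoint_insert).2 ⟨hSp.1, fun V hV _ => ?_⟩
        rw [Set.disjoint_left]
        intro z hz hzV
        have := (hsub hz).2
        exact this (subset_closure ⟨V, hV, hzV⟩)
      · rintro V (rfl | hV)
        · refine ⟨fun z hz => (hsub hz).1, hWo, ⟨p, hpW⟩, J, ?_⟩
          intro x y hxy hx i hi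
          rw [← hxy i hi]
          exact hx i hi
        · exact hSp.2 V hV
    have h1 : insert W S ⊆ S := hS.le_of_ge hWS (subset_insert _ _)
    have hWin : W ∈ S := h1 (mem_insert _ _)
    exact hcon (subset_closure ⟨W, hWin, hpW⟩)
  refine ⟨A, hA, ?_⟩
  rw [hcl]
  exact dep_closure A _ hdep

end general

theorem circle_eq_or (z w : Circle) (h : ‖(z : ℂ) - 1‖ = ‖(w : ℂ) - 1‖) : z = w ∨ z = w⁻¹ := by
  have key : ∀ z : Circle, ‖(z : ℂ) - 1‖ ^ 2 = 2 - 2 * (z : ℂ).re := by
    intro z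
    have h1 : (z : ℂ).re ^ 2 + (z : ℂ).im ^ 2 = 1 := by
      have := z.normSq_coe
      rw [Complex.normSq_apply] at this
      nlinarith
    rw [← Complex.normSq_eq_norm_sq, Complex.normSq_apply]
    simp only [Complex.sub_re, Complex.one_re, Complex.sub_im, Complex.one_im, sub_zero]
    nlinarith
  have hsq : ∀ z : Circle, (z : ℂ).re ^ 2 + (z : ℂ).im ^ 2 = 1 := by
    intro z
    have := z.normSq_coe
    rw [Complex.normSq_apply] at this
    nlinarith
  have hre : (z : ℂ).re = (w : ℂ).re := by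
    have h1 := key z
    have h2 := key w
    rw [h] at h1
    linarith
  have him : (z : ℂ).im ^ 2 = (w : ℂ).im ^ 2 := by
    have h1 := hsq z
    have h2 := hsq w
    rw [hre] at h1
    linarith
  rcases sq_eq_sq_iff_eq_or_eq_neg.1 him with h1 | h1
  · left
    apply Circle.ext
    exact Complex.ext hre h1
  · right
    apply Circle.ext
    rw [Circle.coe_inv_eq_conj]
    exact Complex.ext (by simpa using hre) (by simpa using h1)

variable (C : Mat)

theorem exists_radius (r : ℝ) (ε : ℝ) (hε : 0 < ε) :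
    ∃ δ, 0 < δ ∧ δ < ε ∧ ∀ x h : HH C, dist (x.1 r) (h.1 r) ≠ δ := by
  have hlim : Tendsto (fun N : ℕ => ‖(Circle.exp (2 * Real.pi * C.h none * ((N : ℝ) + 1)⁻¹) : ℂ) - 1‖)
      atTop (𝓝 0) := by
    have h1 : Tendsto (fun N : ℕ => ((N : ℝ) + 1)⁻¹) atTop (𝓝 0) := by
      have := tendsto_one_div_add_atTop_nhds_zero_nat (𝕜 := ℝ)
      simpa [one_div] using this
    have h2 : Continuous (fun t : ℝ => ‖(Circle.exp (2 * Real.pi * C.h none * t) : ℂ) - 1‖) := by
      fun_prop
    have h3 := (h2.tendsto 0).comp h1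
    have h4 : ‖(Circle.exp (2 * Real.pi * C.h none * 0) : ℂ) - 1‖ = 0 := by simp
    rw [h4] at h3
    exact h3
  obtain ⟨N, hN⟩ := (hlim.eventually_lt_const hε).exists
  have hζ : Circle.exp (2 * Real.pi * C.h none) =
      (Circle.exp (2 * Real.pi * C.h none * ((N : ℝ) + 1)⁻¹)) ^ (N + 1) := by
    rw [← Circle.exp_natCast_mul]
    congr 1
    have : (N : ℝ) + 1 ≠ 0 := by positivity
    push_cast
    field_simp
  set z0 := Circle.exp (2 * Real.pi * C.h none * ((N : ℝ) + 1)⁻¹) with hz0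
  refine ⟨_, ?_, hN, ?_⟩
  · rw [norm_pos_iff, sub_ne_zero]
    intro h1
    have h2 : z0 = 1 := Circle.ext (by simpa using h1)
    rw [h2, one_pow] at hζ
    have := coord_ne C r 1
    apply this
    rw [hζ]
    rfl
  · intro x h hd
    have h1 : dist (x.1 r) (h.1 r) = ‖((x.1 r * (h.1 r)⁻¹ : Circle) : ℂ) - 1‖ := by
      have e1 : dist (x.1 r) (h.1 r) = ‖((x.1 r : Circle) : ℂ) - ((h.1 r : Circle) : ℂ)‖ := by
        exact (Subtype.dist_eq (x.1 r) (h.1 r)).trans (dist_eq_norm _ _)
      rw [e1]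
      have e2 : ((x.1 r : Circle) : ℂ) - ((h.1 r : Circle) : ℂ)
          = (((x.1 r * (h.1 r)⁻¹ : Circle) : ℂ) - 1) * ((h.1 r : Circle) : ℂ) := by
        rw [sub_mul, one_mul, ← Circle.coe_mul, inv_mul_cancel_right]
      rw [e2, norm_mul, Circle.norm_coe, mul_one]
    rw [h1] at hd
    rcases circle_eq_or _ _ hd with h2 | h2
    · apply coord_ne C r ((x * h⁻¹) ^ (N + 1))
      show (x.1 r * (h.1 r)⁻¹) ^ (N + 1) = _
      rw [h2, hζ]
    · apply coord_ne C r (((x * h⁻¹) ^ (N + 1))⁻¹)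
      show ((x.1 r * (h.1 r)⁻¹) ^ (N + 1))⁻¹ = _
      rw [h2, inv_pow, inv_inv, hζ]

theorem exists_box (A : Set ℝ) (F : Set (A → Circle)) (hF : IsClosed F) (h : HH C)
    (hh : (fun a : A => h.1 a) ∉ F) :
    ∃ V : Set (A → Circle), IsOpen V ∧ (fun a : A => h.1 a) ∈ V ∧ Disjoint V F ∧
      IsClosed {x : HH C | (fun a : A => x.1 a) ∈ V} := by
  classical
  obtain ⟨J, u, hu, hsub⟩ := isOpen_pi_iff.1 hF.isOpen_compl _ hh
  have h1 : ∀ a : A, ∃ δ : ℝ, 0 < δ ∧ (a ∈ J → Metric.ball (h.1 a) δ ⊆ u a) ∧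
      ∀ x : HH C, dist (x.1 a) (h.1 a) ≠ δ := by
    intro a
    by_cases ha : a ∈ J
    · obtain ⟨ε, hε, hball⟩ := Metric.isOpen_iff.1 (hu a ha).1 _ (hu a ha).2
      obtain ⟨δ, hδ0, hδε, hδ⟩ := exists_radius C a ε hε
      exact ⟨δ, hδ0, fun _ => (Metric.ball_subset_ball hδε.le).trans hball, fun x => hδ x h⟩
    · obtain ⟨δ, hδ0, hδε, hδ⟩ := exists_radius C a 1 one_pos
      exact ⟨δ, hδ0, fun h2 => absurd h2 ha, fun x => hδ x h⟩
  choose δ hδ0 hδ1 hδ2 using h1
  refine ⟨(J : Set A).pi fun a => Metric.ball (h.1 a) (δ a), ?_, ?_, ?_, ?_⟩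
  · exact isOpen_set_pi J.finite_toSet fun a _ => Metric.isOpen_ball
  · intro a _
    exact Metric.mem_ball_self (hδ0 a)
  · rw [Set.disjoint_left]
    intro z hz
    exact hsub fun a ha => hδ1 a ha (hz a ha)
  · have h2 : {x : HH C | (fun a : A => x.1 a) ∈ (J : Set A).pi fun a => Metric.ball (h.1 a) (δ a)}
        = ⋂ a ∈ J, {x : HH C | dist (x.1 a) (h.1 a) ≤ δ a} := by
      ext x
      simp only [mem_iInter]
      constructor
      · intro hx a ha
        exact (Metric.mem_ball.1 (hx a ha)).le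
      · intro hx a ha
        exact Metric.mem_ball.2 (lt_of_le_of_ne (hx a ha) (hδ2 a x))
    rw [h2]
    refine isClosed_biInter fun a _ => isClosed_le ?_ continuous_const
    exact (((continuous_apply (a : ℝ)).comp continuous_subtype_val).dist continuous_const)

theorem zero_dim (f : HH C → ℝ) (hf : Continuous f) :
    ∃ U : Set (HH C), IsClopen U ∧ f ⁻¹' {0} ⊆ U ∧ Disjoint U (f ⁻¹' {1}) := by
  classical
  have hU0 : IsOpen {g : HH C | f g < 1 / 3} := isOpen_lt hf continuous_const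
  have hU1 : IsOpen {g : HH C | 2 / 3 < f g} := isOpen_lt continuous_const hf
  obtain ⟨O0, hO0, hO0'⟩ := isOpen_induced_iff.1 hU0
  obtain ⟨O1, hO1, hO1'⟩ := isOpen_induced_iff.1 hU1
  obtain ⟨A0, hA0, hdep0⟩ := exists_countable_dep O0 hO0
  obtain ⟨A1, hA1, hdep1⟩ := exists_countable_dep O1 hO1
  let A : Set ℝ := A0 ∪ A1
  have hA : A.Countable := hA0.union hA1
  have : Countable A := hA.to_subtype
  have hd0 : Dep A (closure O0) := hdep0.mono subset_union_left
  have hd1 : Dep A (closure O1) := hdep1.mono subset_union_right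
  -- points of the group in the closures
  have hcl : ∀ (O : Set (ℝ → Circle)) (hO : IsOpen O) (g : HH C), g.1 ∈ closure O →
      g ∈ closure (Subtype.val ⁻¹' O : Set (HH C)) := by
    intro O hO g hg
    rw [Topology.IsInducing.subtypeVal.closure_eq_preimage_closure_image]
    show g.1 ∈ closure _
    have h0 : (Subtype.val '' (Subtype.val ⁻¹' O : Set (HH C))) = (HH C : Set (ℝ → Circle)) ∩ O :=
      Subtype.image_preimage_coe _ _
    refine (congrArg (fun s => g.1 ∈ closure s) h0).mpr ?_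
    have h1 := (dense_HH C).open_subset_closure_inter hO
    have h2 : closure O ⊆ closure (O ∩ (HH C : Set (ℝ → Circle))) :=
      closure_minimal h1 isClosed_closure
    rw [inter_comm] at h2
    exact h2 hg
  have hf0 : ∀ g : HH C, g.1 ∈ closure O0 → f g ≤ 1 / 3 := by
    intro g hg
    have h1 := hcl O0 hO0 g hg
    rw [hO0'] at h1
    have h2 : closure {g : HH C | f g < 1 / 3} ⊆ {g | f g ≤ 1 / 3} :=
      closure_minimal (fun g (hg : f g < 1 / 3) => hg.le) (isClosed_le hf continuous_const)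
    exact h2 h1
  have hf1 : ∀ g : HH C, g.1 ∈ closure O1 → 2 / 3 ≤ f g := by
    intro g hg
    have h1 := hcl O1 hO1 g hg
    rw [hO1'] at h1
    have h2 : closure {g : HH C | 2 / 3 < f g} ⊆ {g | 2 / 3 ≤ f g} :=
      closure_minimal (fun g (hg : 2 / 3 < f g) => hg.le) (isClosed_le continuous_const hf)
    exact h2 h1
  let π : (ℝ → Circle) → (A → Circle) := fun x a => x a
  have hπ : Continuous π := continuous_pi fun a => continuous_apply _
  let F : Bool → Set (A → Circle) := fun b => π '' (closure (cond b O1 O0))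
  have hFc : ∀ b, IsClosed (F b) := fun b =>
    (isClosed_closure.isCompact.image hπ).isClosed
  have hFm : ∀ b, ∀ g : HH C, π g.1 ∈ F b → g.1 ∈ closure (cond b O1 O0) := by
    rintro b g ⟨x, hx, hxg⟩
    have hag : ∀ a ∈ A, x a = g.1 a := fun a ha => congrFun hxg ⟨a, ha⟩
    cases b with
    | false => exact hd0 x g.1 hag hx
    | true => exact hd1 x g.1 hag hx
  have hex : ∀ g : HH C, ∃ (b : Bool) (V : Set (A → Circle)), IsOpen V ∧ π g.1 ∈ V ∧
      Disjoint V (F b) ∧ IsClosed {x : HH C | π x.1 ∈ V} := by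
    intro g
    have h1 : ∃ b, π g.1 ∉ F b := by
      by_contra hcon
      push Not at hcon
      have h2 := hf0 g (hFm false g (hcon false))
      have h3 := hf1 g (hFm true g (hcon true))
      linarith
    obtain ⟨b, hb⟩ := h1
    obtain ⟨V, hV1, hV2, hV3, hV4⟩ := exists_box C A (F b) (hFc b) g hb
    exact ⟨b, V, hV1, hV2, hV3, hV4⟩
  choose b V hV1 hV2 hV3 hV4 using hex
  obtain ⟨T, hT, hTU⟩ := TopologicalSpace.isOpen_iUnion_countable V hV1
  have hcov : ∀ g : HH C, ∃ t ∈ T, π g.1 ∈ V t := by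
    intro g
    have : π g.1 ∈ ⋃ t, V t := mem_iUnion.2 ⟨g, hV2 g⟩
    rw [← hTU] at this
    simpa using this
  have hTne : T.Nonempty := by
    obtain ⟨t, ht, _⟩ := hcov 1
    exact ⟨t, ht⟩
  obtain ⟨t, rfl⟩ := hT.exists_eq_range hTne
  have hcov' : ∀ g : HH C, ∃ n, π g.1 ∈ V (t n) := by
    intro g
    obtain ⟨_, ⟨n, rfl⟩, hn⟩ := hcov g
    exact ⟨n, hn⟩
  let W : ℕ → Set (HH C) := fun n => {x | π x.1 ∈ V (t n)}
  have hWo : ∀ n, IsOpen (W n) := fun n =>
    (hV1 (t n)).preimage (hπ.comp continuous_subtype_val)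
  have hWc : ∀ n, IsClosed (W n) := fun n => hV4 (t n)
  let D : ℕ → Set (HH C) := fun n => W n ∩ ⋂ m ∈ Finset.range n, (W m)ᶜ
  have hDo : ∀ n, IsOpen (D n) := fun n =>
    (hWo n).inter (isOpen_biInter_finset fun m _ => (hWc m).isOpen_compl)
  have hDcov : ∀ g : HH C, ∃ n, g ∈ D n := by
    intro g
    refine ⟨Nat.find (hcov' g), Nat.find_spec (hcov' g), ?_⟩
    simp only [mem_iInter]
    intro m hm
    exact Nat.find_min (hcov' g) (Finset.mem_range.1 hm)
  have hDdis : ∀ g m n, g ∈ D m → g ∈ D n → m = n := by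
    intro g m n hm hn
    rcases lt_trichotomy m n with h | h | h
    · exact absurd hm.1 (mem_iInter₂.1 hn.2 m (Finset.mem_range.2 h))
    · exact h
    · exact absurd hn.1 (mem_iInter₂.1 hm.2 n (Finset.mem_range.2 h))
  let Q : Bool → Set (HH C) := fun c => ⋃ n, ⋃ (_ : b (t n) = c), D n
  have hQo : ∀ c, IsOpen (Q c) := fun c => isOpen_iUnion fun n => isOpen_iUnion fun _ => hDo n
  have hQcov : ∀ g, g ∈ Q true ∨ g ∈ Q false := by
    intro g
    obtain ⟨n, hn⟩ := hDcov g
    cases hb : b (t n) with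
    | true => exact Or.inl (mem_iUnion₂.2 ⟨n, hb, hn⟩)
    | false => exact Or.inr (mem_iUnion₂.2 ⟨n, hb, hn⟩)
  have hQdis : ∀ g, g ∈ Q true → g ∉ Q false := by
    intro g h1 h2
    obtain ⟨n, hn, hgn⟩ := mem_iUnion₂.1 h1
    obtain ⟨m, hm, hgm⟩ := mem_iUnion₂.1 h2
    rw [hDdis g m n hgm hgn] at hm
    rw [hm] at hn
    exact Bool.noConfusion hn
  have hQF : ∀ c g, g ∈ Q c → π g.1 ∉ F c := by
    intro c g hg hF
    obtain ⟨n, hn, hgn⟩ := mem_iUnion₂.1 hg
    rw [← hn] at hF
    exact Set.disjoint_left.1 (hV3 (t n)) hgn.1 hF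
  refine ⟨Q true, ⟨?_, hQo true⟩, ?_, ?_⟩
  · have : Q true = (Q false)ᶜ := by
      ext g
      constructor
      · exact hQdis g
      · intro h
        exact (hQcov g).resolve_right h
    rw [this]
    exact (hQo false).isClosed_compl
  · intro g hg
    refine (hQcov g).resolve_right fun h => ?_
    have h1 : f g = 0 := hg
    have h2 : g ∈ (Subtype.val ⁻¹' O0 : Set (HH C)) := by
      rw [hO0']
      show f g < 1 / 3
      rw [h1]; norm_num
    exact hQF false g h ⟨g.1, subset_closure h2, rfl⟩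
  · rw [Set.disjoint_left]
    intro g h hg
    have h1 : f g = 1 := hg
    have h2 : g ∈ (Subtype.val ⁻¹' O1 : Set (HH C)) := by
      rw [hO1']
      show 2 / 3 < f g
      rw [h1]; norm_num
    exact hQF true g h ⟨g.1, subset_closure h2, rfl⟩

end Pool.Agent.P5131b0
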